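import Pool.Agent.Run7.h278.WL.Fej

set_option autoImplicit false

/-!
# Hardy's function, multiplicities, and the final form

The lemmas about the phase and the derivative of `Z` at a zero are those of the starting file
`Results.MP_6bc78b_nt.SimpleZerosOfZ`.
-/

namespace Run7.h278.WL

open Complex Filter Topology Finset Metric Pool.Agent.H24R2.JP Run7.h278.LI

/-- the phase -/
noncomputable def phase (t : ℝ) : ℂ :=
  Gamma (1 / 4 + I * t / 2) / ‖Gamma (1 / 4 + I * t / 2)‖ * cexp (-(I * (t / 2) * Real.log Real.pi))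

/-- Hardy's function -/
noncomputable def hZ (t : ℝ) : ℂ := phase t * riemannZeta (1 / 2 + I * t)

lemma gamma_ne (t : ℝ) : Gamma (1 / 4 + I * t / 2) ≠ 0 := by
  apply Gamma_ne_zero_of_re_pos
  simp

lemma gamma_cont : Continuous fun t : ℝ => Gamma (1 / 4 + I * t / 2) := by
  rw [continuous_iff_continuousAt]
  intro t
  have h1 : ContinuousAt Gamma (1 / 4 + I * t / 2) := by
    refine (differentiableAt_Gamma _ fun m hm => ?_).continuousAt
    have := congrArg Complex.re hm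
    simp at this
    have hm0 : (0 : ℝ) ≤ m := Nat.cast_nonneg m
    linarith
  exact ContinuousAt.comp (f := fun t : ℝ => (1 / 4 + I * t / 2 : ℂ)) h1 (by fun_prop)

lemma phase_cont : Continuous phase := by
  unfold phase
  refine Continuous.mul (gamma_cont.div ?_ ?_) (by fun_prop)
  · exact Complex.continuous_ofReal.comp gamma_cont.norm
  · intro t
    rw [Complex.ofReal_ne_zero]
    exact norm_ne_zero_iff.mpr (gamma_ne t)

lemma phase_ne (t : ℝ) : phase t ≠ 0 := by
  unfold phase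
  refine mul_ne_zero (div_ne_zero (gamma_ne t) ?_) (Complex.exp_ne_zero _)
  rw [Complex.ofReal_ne_zero]
  exact norm_ne_zero_iff.mpr (gamma_ne t)

lemma Z_zero_iff (t : ℝ) : hZ t = 0 ↔ riemannZeta (1 / 2 + I * t) = 0 := by
  unfold hZ
  rw [mul_eq_zero]
  exact ⟨fun h => h.resolve_left (phase_ne t), Or.inr⟩

lemma zeta_diff (t : ℝ) : DifferentiableAt ℂ riemannZeta (1 / 2 + I * t) := by
  refine differentiableAt_riemannZeta fun h => ?_
  have := congrArg Complex.re h
  norm_num at this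

lemma Z_hasDerivAt (t : ℝ) (h : riemannZeta (1 / 2 + I * t) = 0) :
    HasDerivAt hZ (phase t * (deriv riemannZeta (1 / 2 + I * t) * I)) t := by
  have hg : HasDerivAt (fun u : ℝ => riemannZeta (1 / 2 + I * u))
      (deriv riemannZeta (1 / 2 + I * t) * I) t := by
    have h1 : HasDerivAt (fun u : ℝ => (1 / 2 + I * u : ℂ)) I t := by
      have h2 : HasDerivAt (fun u : ℝ => (u : ℂ)) 1 t := Complex.ofRealCLM.hasDerivAt
      simpa using (h2.const_mul I).const_add (1 / 2 : ℂ)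
    exact HasDerivAt.comp (h₂ := riemannZeta) t (zeta_diff t).hasDerivAt h1
  rw [hasDerivAt_iff_tendsto_slope] at hg ⊢
  have h3 : Tendsto phase (𝓝[≠] t) (𝓝 (phase t)) :=
    phase_cont.continuousAt.tendsto.mono_left nhdsWithin_le_nhds
  refine (h3.mul hg).congr fun u => ?_
  have hZ : hZ t = 0 := (Z_zero_iff t).mpr h
  rw [slope_def_module, slope_def_module, hZ, h, sub_zero, sub_zero]
  unfold WL.hZ
  simp only [Complex.real_smul]
  ring

lemma zeta_analytic {s : ℂ} (hs : s ≠ 1) : AnalyticAt ℂ riemannZeta s := by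
  have : DifferentiableOn ℂ riemannZeta ({1}ᶜ : Set ℂ) := fun z hz =>
    (differentiableAt_riemannZeta hz).differentiableWithinAt
  exact this.analyticAt (isOpen_compl_singleton.mem_nhds hs)

/-- simple zeros and the derivative -/
lemma order_one_iff {s : ℂ} (hs : s ≠ 1) (h : riemannZeta s = 0) :
    analyticOrderAt riemannZeta s = 1 ↔ deriv riemannZeta s ≠ 0 := by
  have ha := zeta_analytic hs
  have h3 := ha.analyticOrderAt_deriv_add_one
  simp only [h, sub_zero] at h3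
  rw [← ha.deriv.analyticOrderAt_eq_zero, ← h3]
  generalize analyticOrderAt (deriv riemannZeta) s = x
  cases x with
  | top => simp
  | coe n =>
    constructor
    · intro h6
      have h6 : n + 1 = 1 := by exact_mod_cast h6
      have h7 : n = 0 := by omega
      rw [h7]; rfl
    · intro h6
      rw [h6]; rfl

/-- the orders of zeta and of `XX` -/
theorem ord_XX {s : ℂ} (h0 : 0 < s.re) (h1 : s ≠ 1) : analyticOrderAt riemannZeta s = analyticOrderAt XX (s - 1 / 2) := by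
  have hs0 : s ≠ 0 := fun h => by rw [h] at h0; simp at h0
  have hA : AnalyticAt ℂ (fun w : ℂ => (Gammaℝ w)⁻¹) s := differentiable_Gammaℝ_inv.analyticAt s
  have hA0 : analyticOrderAt (fun w : ℂ => (Gammaℝ w)⁻¹) s = 0 :=
    hA.analyticOrderAt_eq_zero.2 (inv_ne_zero (Gammaℝ_ne_zero_of_re_pos h0))
  have hB : AnalyticAt ℂ (fun w : ℂ => 4 * w * (w - 1)) s := by fun_prop
  have hB0 : analyticOrderAt (fun w : ℂ => 4 * w * (w - 1)) s = 0 := by
    rw [hB.analyticOrderAt_eq_zero]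
    exact mul_ne_zero (mul_ne_zero (by norm_num) hs0) (sub_ne_zero.2 h1)
  have hsh : AnalyticAt ℂ (fun w : ℂ => w - 1 / 2) s := by fun_prop
  have hX : AnalyticAt ℂ (fun w : ℂ => XX (w - 1 / 2)) s :=
    (B1h.XX_diff.comp (by fun_prop : Differentiable ℂ fun w : ℂ => w - 1 / 2)).analyticAt s
  have hev : ((fun w : ℂ => 4 * w * (w - 1)) * riemannZeta) =ᶠ[𝓝 s] ((fun w : ℂ => XX (w - 1 / 2)) * fun w : ℂ => (Gammaℝ w)⁻¹) := by
    filter_upwards [isOpen_ne.mem_nhds hs0, isOpen_ne.mem_nhds h1] with w hw0 hw1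
    simp only [Pi.mul_apply]
    rw [riemannZeta_def_of_ne_zero hw0, Zer.XX_eq _ (by rwa [show (1 / 2 + (w - 1 / 2) : ℂ) = w by ring])
      (by
        rw [show (1 - (1 / 2 + (w - 1 / 2)) : ℂ) = 1 - w by ring]
        exact sub_ne_zero.2 (Ne.symm hw1)), show (1 / 2 + (w - 1 / 2) : ℂ) = w by ring]
    rw [div_eq_mul_inv]
    ring
  have h2 := analyticOrderAt_congr hev
  rw [analyticOrderAt_mul hB (zeta_analytic h1), analyticOrderAt_mul hX hA, hA0, hB0, add_zero, zero_add] at h2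
  rw [h2]
  have h3 : analyticOrderAt (XX ∘ (fun w : ℂ => w - 1 / 2)) s = analyticOrderAt XX ((fun w : ℂ => w - 1 / 2) s) := by
    rw [analyticOrderAt_comp_of_deriv_ne_zero hsh]
    have : deriv (fun w : ℂ => w - 1 / 2) s = 1 := by
      rw [deriv_sub_const]
      exact deriv_id s
    rw [this]
    exact one_ne_zero
  exact h3

/-- the orders of `XX` and of `Fs` -/
theorem ord_Fs {z : ℂ} (hz : z ≠ 0) : analyticOrderAt XX z = analyticOrderAt Fs (z ^ 2 - 1 / 4) := by
  have h1 : XX = Fs ∘ fun w : ℂ => w ^ 2 - 1 / 4 := by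
    funext w
    simp only [Function.comp_apply]
    unfold Fs
    rw [sub_add_cancel, b1.2.1]
  rw [h1, analyticOrderAt_comp_of_deriv_ne_zero (by fun_prop)]
  have h2 : HasDerivAt (fun w : ℂ => w ^ 2 - 1 / 4) (2 * z) z := by
    have := ((hasDerivAt_id z).pow 2).sub_const (1 / 4 : ℂ)
    simpa using this
  rw [h2.deriv]
  exact mul_ne_zero (by norm_num) hz

/-- the point belonging to an ordinate -/
noncomputable def vt (t : ℝ) : ℂ := ((-(1 / 4 + t ^ 2) : ℝ) : ℂ)

theorem vt_eq (t : ℝ) : vt t = (I * t) ^ 2 - 1 / 4 := by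
  unfold vt
  rw [mul_pow, Complex.I_sq]
  push_cast
  ring

theorem mult_eq {t : ℝ} (ht : t ≠ 0) : analyticOrderNatAt riemannZeta (1 / 2 + I * t) = mu Fs (vt t) := by
  unfold mu analyticOrderNatAt
  rw [ord_XX (by simp) (by
    intro h
    have := congrArg Complex.re h
    norm_num at this), show (1 / 2 + I * (t : ℂ) - 1 / 2 : ℂ) = I * t by ring,
    ord_Fs (mul_ne_zero I_ne_zero (by exact_mod_cast ht)), vt_eq]

theorem Z_iff (t : ℝ) : hZ t = 0 ↔ Fs (vt t) = 0 := by
  rw [Z_zero_iff]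
  have h1 : Fs (vt t) = XX (I * t) := by
    unfold Fs
    rw [vt_eq, sub_add_cancel, b1.2.1]
  rw [h1]
  have h2 : (1 / 2 + I * (t : ℂ)) ≠ 0 := by
    intro h
    have := congrArg Complex.re h
    norm_num at this
  have h3 : (1 - (1 / 2 + I * (t : ℂ))) ≠ 0 := by
    intro h
    have := congrArg Complex.re h
    norm_num at this
  rw [Zer.XX_eq _ h2 h3, riemannZeta_def_of_ne_zero h2]
  have h4 : Gammaℝ (1 / 2 + I * t) ≠ 0 := Gammaℝ_ne_zero_of_re_pos (by simp)
  have h5 : (4 * (I * (t : ℂ)) ^ 2 - 1 : ℂ) ≠ 0 := by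
    rw [mul_pow, Complex.I_sq]
    have : (4 * (-1 * (t : ℂ) ^ 2) - 1 : ℂ) = ((-(4 * t ^ 2 + 1) : ℝ) : ℂ) := by
      push_cast
      ring
    rw [this]
    have : -(4 * t ^ 2 + 1) ≠ 0 := by nlinarith [sq_nonneg t]
    exact_mod_cast this
  rw [div_eq_zero_iff, mul_eq_zero]
  tauto

theorem Z_ne_zero_at : hZ 0 ≠ 0 := by
  intro h
  rw [Z_iff] at h
  apply Fs_quarter
  rw [← h]
  unfold vt
  congr 1
  push_cast
  ring

theorem simple_iff {t : ℝ} (h : hZ t = 0) : deriv hZ t ≠ 0 ↔ mu Fs (vt t) = 1 := by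
  have ht : t ≠ 0 := by
    rintro rfl
    exact Z_ne_zero_at h
  have h1 := (Z_zero_iff t).1 h
  rw [← mult_eq ht, (Z_hasDerivAt t h1).deriv]
  have hs : (1 / 2 + I * t : ℂ) ≠ 1 := by
    intro h
    have := congrArg Complex.re h
    norm_num at this
  have h2 : phase t * (deriv riemannZeta (1 / 2 + I * t) * I) ≠ 0 ↔ deriv riemannZeta (1 / 2 + I * t) ≠ 0 := by
    constructor
    · intro h3 h4
      apply h3
      rw [h4]
      simp
    · intro h3
      exact mul_ne_zero (phase_ne t) (mul_ne_zero h3 I_ne_zero)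
  rw [h2, ← order_one_iff hs h1]
  unfold analyticOrderNatAt
  generalize analyticOrderAt riemannZeta (1 / 2 + I * t) = x
  cases x with
  | top => simp
  | coe n =>
    rw [ENat.toNat_natCast]
    exact_mod_cast Iff.rfl

/-- the positive zeros of Hardy's function -/
abbrev TI : Type := {t : ℝ // 0 < t ∧ hZ t = 0}

/-- under RH the zeros are the points of the positive ordinates -/
theorem equivT (hRH : RiemannHypothesis) : ∃ e : TI ≃ ZI, ∀ t : TI, ((e t : ZI) : ℂ) = vt t := by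
  have hinj : Function.Injective (fun t : TI => (⟨vt t, (Z_iff t).1 t.2.2⟩ : ZI)) := by
    intro t t' h
    have h1 : vt (t : ℝ) = vt (t' : ℝ) := congrArg Subtype.val h
    unfold vt at h1
    have h2 : -(1 / 4 + (t : ℝ) ^ 2) = -(1 / 4 + (t' : ℝ) ^ 2) := by exact_mod_cast h1
    have h3 : (t : ℝ) ^ 2 = (t' : ℝ) ^ 2 := by linarith
    exact Subtype.ext ((sq_eq_sq₀ t.2.1.le t'.2.1.le).1 h3)
  have hsurj : Function.Surjective (fun t : TI => (⟨vt t, (Z_iff t).1 t.2.2⟩ : ZI)) := by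
    intro v
    obtain ⟨y, hy, hv⟩ := Fs_zeros hRH v.2
    have hy' : y ≠ -(1 / 4) := by
      intro h
      apply Fs_quarter
      have h1 := v.2
      rw [hv, h] at h1
      rw [← h1]
      congr 1
      push_cast
      ring
    have hy2 : 0 < -(1 / 4) - y := by
      rcases lt_or_eq_of_le hy with h | h
      · linarith
      · exact absurd h hy'
    set t : ℝ := Real.sqrt (-(1 / 4) - y) with ht
    have ht0 : 0 < t := Real.sqrt_pos.2 hy2
    have ht2 : t ^ 2 = -(1 / 4) - y := Real.sq_sqrt hy2.le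
    have hvt : vt t = v := by
      rw [hv]
      unfold vt
      congr 1
      linarith
    refine ⟨⟨t, ht0, (Z_iff t).2 (by rw [hvt]; exact v.2)⟩, Subtype.ext hvt⟩
  exact ⟨Equiv.ofBijective _ ⟨hinj, hsurj⟩, fun t => rfl⟩

theorem simple_all_iff (hRH : RiemannHypothesis) : (∀ t : ℝ, hZ t = 0 → deriv hZ t ≠ 0) ↔ ∀ v : ZI, mu Fs v = 1 := by
  obtain ⟨e, he⟩ := equivT hRH
  constructor
  · intro h v
    obtain ⟨t, rfl⟩ := e.surjective v
    rw [he]
    exact (simple_iff t.2.2).1 (h t t.2.2)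
  · intro h t ht
    rw [simple_iff ht]
    exact h ⟨vt t, (Z_iff t).1 ht⟩

/-- the multiplicity of the real zero `t` -/
noncomputable def mt (t : ℝ) : ℕ := analyticOrderNatAt riemannZeta (1 / 2 + I * t)

theorem norm_vt (t : ℝ) : ‖1 / vt t‖ = 1 / (1 / 4 + t ^ 2) := by
  unfold vt
  rw [norm_div, norm_one, Complex.norm_real, Real.norm_eq_abs, abs_neg, abs_of_pos (by positivity)]

theorem LL_T (hRH : RiemannHypothesis) : LL = ∑' t : TI, 2 * ((mt t : ℝ) / (1 / 4 + (t : ℝ) ^ 2)) ^ 2 := by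
  obtain ⟨e, he⟩ := equivT hRH
  unfold LL
  rw [← e.tsum_eq]
  refine tsum_congr fun t => ?_
  rw [he, norm_vt]
  unfold mt
  rw [mult_eq t.2.1.ne']
  ring

/-- one zero -/
theorem one_zero (hRH : RiemannHypothesis) {t : ℝ} (ht : 0 < t) (hz : hZ t = 0) :
    2 * ((mt t : ℝ) * ((mt t : ℝ) - 1)) / (1 / 4 + t ^ 2) ^ 2 ≤ LL - (8 * li 1 - 2 * li 2) := by
  have h := diff_hasSum hRH
  have h1 := le_hasSum h ⟨vt t, (Z_iff t).1 hz⟩ fun v _ => diff_nonneg v
  refine le_trans (le_of_eq ?_) h1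
  simp only
  rw [norm_vt]
  unfold mt
  rw [mult_eq ht.ne', div_pow, one_pow, mul_one_div]

theorem GG_lim {z z' : ℂ} (hz : ‖z‖ = 1) (hz' : ‖z'‖ = 1) (hp : z * z' ≠ 1) :
    Tendsto (fun N : ℕ => GG N z z' / (N : ℝ) ^ 2) atTop (𝓝 (if z = z' then 2 else 0)) := by
  classical
  have hz0' : z' ≠ 0 := fun h => by rw [h, norm_zero] at hz'; exact zero_ne_one hz'
  have h1 : ∀ x : ℂ, ‖x‖ = 1 → x ≠ 1 → Tendsto (fun N : ℕ => 2 * ‖∑ j ∈ range N, x ^ j‖ ^ 2 / (N : ℝ) ^ 2) atTop (𝓝 0) := by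
    intro x hx hx1
    have h2 := ((Erg.id x hx hx1).norm.pow 2).const_mul 2
    rw [norm_zero] at h2
    have e : (2 : ℝ) * 0 ^ 2 = 0 := by norm_num
    rw [e] at h2
    refine h2.congr fun N => ?_
    rw [norm_div, Complex.norm_natCast, div_pow]
    ring
  have m1 : ‖z * z'‖ = 1 := by rw [norm_mul, hz, hz', one_mul]
  have m2 : ‖z * z'⁻¹‖ = 1 := by rw [norm_mul, norm_inv, hz, hz']; norm_num
  have e1 : (fun N : ℕ => GG N z z' / (N : ℝ) ^ 2) = fun N : ℕ => 2 * ‖∑ j ∈ range N, (z * z') ^ j‖ ^ 2 / (N : ℝ) ^ 2 +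
      2 * ‖∑ j ∈ range N, (z * z'⁻¹) ^ j‖ ^ 2 / (N : ℝ) ^ 2 := by
    ext N
    unfold GG
    ring
  rw [e1]
  split_ifs with h
  · have h2 : Tendsto (fun N : ℕ => 2 * ‖∑ j ∈ range N, (z * z'⁻¹) ^ j‖ ^ 2 / (N : ℝ) ^ 2) atTop (𝓝 2) := by
      refine tendsto_const_nhds.congr' ?_
      filter_upwards [eventually_ge_atTop 1] with N hN
      have hN0 : (N : ℝ) ≠ 0 := by
        have : N ≠ 0 := by omega
        exact_mod_cast this
      rw [h, mul_inv_cancel₀ hz0']
      simp only [one_pow, sum_const, card_range, nsmul_eq_mul, mul_one, Complex.norm_natCast]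
      field_simp
    simpa using (h1 _ m1 hp).add h2
  · have h3 : z * z'⁻¹ ≠ 1 := by
      intro h4
      apply h
      rwa [mul_inv_eq_one₀ hz0'] at h4
    simpa using (h1 _ m1 hp).add (h1 _ m2 h3)

theorem fejer_tendsto (hRH : RiemannHypothesis) :
    Tendsto (fun N : ℕ => (∑ j ∈ range N, ∑ k ∈ range N, cc (nd j k) ^ 2) / (N : ℝ) ^ 2) atTop (𝓝 LL) := by
  classical
  obtain ⟨Z, hZ⟩ := exists_Zs
  set u : ZI → ℝ := fun v => (mu Fs v : ℝ) * ‖1 / (v : ℂ)‖ with hu
  have hu0 : ∀ v, 0 ≤ u v := fun v => by rw [hu]; positivity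
  have hus : Summable u := by
    refine (wt_summable hZ).congr fun v => ?_
    unfold wt
    rw [norm_mul, norm_neg, Complex.norm_natCast]
  have huu : Summable fun p : ZI × ZI => u p.1 * u p.2 := hus.mul_of_nonneg hus hu0 hu0
  have h1 : ∀ N : ℕ, (∑ j ∈ range N, ∑ k ∈ range N, cc (nd j k) ^ 2) / (N : ℝ) ^ 2 =
      ∑' p : ZI × ZI, u p.1 * u p.2 * (GG N (zt p.1) (zt p.2) / (N : ℝ) ^ 2) := by
    intro N
    rw [fejer_eq hRH, ← tsum_div_const]
    refine tsum_congr fun p => ?_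
    rw [hu]
    ring
  simp_rw [h1]
  have h2 : LL = ∑' p : ZI × ZI, u p.1 * u p.2 * (if p.1 = p.2 then 2 else 0) := by
    have hinj : Function.Injective (fun v : ZI => (v, v)) := fun v v' h => (Prod.mk.inj h).1
    have hsup : Function.support (fun p : ZI × ZI => u p.1 * u p.2 * (if p.1 = p.2 then (2 : ℝ) else 0)) ⊆
        Set.range (fun v : ZI => (v, v)) := by
      intro p hp
      rw [Function.mem_support] at hp
      by_contra hcon
      apply hp
      rw [if_neg, mul_zero]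
      intro hpp
      exact hcon ⟨p.1, Prod.ext rfl hpp⟩
    rw [← hinj.tsum_eq hsup]
    unfold LL
    refine tsum_congr fun v => ?_
    simp only [if_true]
    rw [hu]
    ring
  rw [h2]
  refine tendsto_tsum_of_dominated_convergence (bound := fun p : ZI × ZI => u p.1 * u p.2 * 4) (huu.mul_right 4)
    (fun p => ?_) (Eventually.of_forall fun N p => ?_)
  · have n1 := zi_norm hRH p.1
    have n2 := zi_norm hRH p.2
    have hp : zt (p.1 : ℂ) * zt (p.2 : ℂ) ≠ 1 := by
      intro h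
      have h1 : zt (p.1 : ℂ) = (zt (p.2 : ℂ))⁻¹ := eq_inv_of_mul_eq_one_left h
      have h2 := zt_inv_inj (zero_ne p.1.2) (zero_ne p.2.2) h1
      rw [h2] at h
      exact zt_sq_ne p.2.2 h
    have h3 := (GG_lim n1 n2 hp).const_mul (u p.1 * u p.2)
    have h4 : (if zt (p.1 : ℂ) = zt (p.2 : ℂ) then (2 : ℝ) else 0) = if p.1 = p.2 then 2 else 0 := by
      by_cases h5 : p.1 = p.2
      · rw [if_pos h5, if_pos (by rw [h5])]
      · rw [if_neg h5, if_neg]
        intro h6
        exact h5 (Subtype.ext (zt_inj (zero_ne p.1.2) (zero_ne p.2.2) h6))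
    rwa [h4] at h3
  · have hle := GG_le N (zi_norm hRH p.1) (zi_norm hRH p.2)
    have h0 := GG_nonneg N (zt p.1) (zt p.2)
    rw [Real.norm_eq_abs, abs_of_nonneg (by have := hu0 p.1; have := hu0 p.2; positivity)]
    have h5 : GG N (zt p.1) (zt p.2) / (N : ℝ) ^ 2 ≤ 4 := by
      rcases Nat.eq_zero_or_pos N with hN | hN
      · rw [hN]
        simp
      · have hN' : (0 : ℝ) < N := by exact_mod_cast hN
        rw [div_le_iff₀ (by positivity)]
        exact hle
    exact mul_le_mul_of_nonneg_left h5 (mul_nonneg (hu0 _) (hu0 _))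

end Run7.h278.WL
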