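import Mathlib

set_option autoImplicit false

/-!
# Ergodic sequences of integers, and mean values of squares of absolutely convergent sums
-/

namespace Run7.h278.WL

open Complex Filter Topology Finset

/-- Ergodic (Hartman uniformly distributed) sequences. -/
def Erg (a : ℕ → ℕ) : Prop := ∀ z : ℂ, ‖z‖ = 1 → z ≠ 1 →
  Tendsto (fun N : ℕ => (∑ n ∈ range N, z ^ a n) / (N : ℂ)) atTop (𝓝 0)

theorem Erg.id : Erg fun n => n := by
  intro z hz h1
  have h2 : z - 1 ≠ 0 := sub_ne_zero.2 h1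
  have h3 : Tendsto (fun N : ℕ => 2 / ‖z - 1‖ * (1 / (N : ℝ))) atTop (𝓝 0) := by
    simpa using tendsto_one_div_atTop_nhds_zero_nat.const_mul (2 / ‖z - 1‖)
  refine squeeze_zero_norm (fun N => ?_) h3
  rw [geom_sum_eq h1, norm_div, norm_div, Complex.norm_natCast]
  have h4 : ‖z ^ N - 1‖ ≤ 2 := by
    refine (norm_sub_le _ _).trans ?_
    rw [norm_pow, hz, one_pow, norm_one]
    norm_num
  have h5 : 0 < ‖z - 1‖ := norm_pos_iff.2 h2
  calc ‖z ^ N - 1‖ / ‖z - 1‖ / (N : ℝ) = ‖z ^ N - 1‖ / ‖z - 1‖ * (1 / (N : ℝ)) := by ring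
    _ ≤ 2 / ‖z - 1‖ * (1 / (N : ℝ)) := by gcongr

theorem Erg.zpow {a : ℕ → ℕ} (ha : Erg a) {z : ℂ} (hz : ‖z‖ = 1) (h1 : z ≠ 1) (c : ℂ) (k : ℕ) :
    Tendsto (fun N : ℕ => (∑ n ∈ range N, c * z ^ (a n + k)) / (N : ℂ)) atTop (𝓝 0) := by
  have h := (ha z hz h1).const_mul (c * z ^ k)
  rw [mul_zero] at h
  refine h.congr fun N => ?_
  rw [← mul_div_assoc, mul_sum]
  congr 1
  refine sum_congr rfl fun n _ => ?_
  ring

theorem mean_one (c : ℂ) : Tendsto (fun N : ℕ => (∑ _n ∈ range N, c) / (N : ℂ)) atTop (𝓝 c) := by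
  refine tendsto_const_nhds.congr' ?_
  filter_upwards [eventually_ge_atTop 1] with N hN
  have : (N : ℂ) ≠ 0 := by
    have : N ≠ 0 := by omega
    exact_mod_cast this
  rw [sum_const, card_range, nsmul_eq_mul]
  field_simp

/-- values have frequency zero -/
theorem Erg.freq {a : ℕ → ℕ} (ha : Erg a) (v : ℕ) :
    Tendsto (fun N : ℕ => (∑ n ∈ range N, if a n = v then (1 : ℝ) else 0) / (N : ℝ)) atTop (𝓝 0) := by
  have key : ∀ K : ℕ, 1 ≤ K → ∀ᶠ N : ℕ in atTop,
      (∑ n ∈ range N, if a n = v then (1 : ℝ) else 0) / (N : ℝ) < 2 / K := by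
    intro K hK
    have hK0 : (K : ℂ) ≠ 0 := by
      have : K ≠ 0 := by omega
      exact_mod_cast this
    have hKr : (0 : ℝ) < K := by exact_mod_cast hK
    set z : ℂ := Complex.exp (2 * Real.pi * I / K) with hz
    have hprim : IsPrimitiveRoot z K := Complex.isPrimitiveRoot_exp K (by omega)
    have hzn : ‖z‖ = 1 := by
      refine Complex.norm_eq_one_of_pow_eq_one hprim.pow_eq_one (by omega)
    have hz0 : z ≠ 0 := fun h => by rw [h, norm_zero] at hzn; exact zero_ne_one hzn
    -- the indicator of the residue class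
    have hF : ∀ m : ℕ, (if m = v then (1 : ℝ) else 0) ≤ ((∑ k ∈ range K, ((z⁻¹) ^ k) ^ v * (z ^ k) ^ m) / K).re := by
      intro m
      set y : ℂ := z ^ m * (z⁻¹) ^ v with hy
      have e1 : ∑ k ∈ range K, ((z⁻¹) ^ k) ^ v * (z ^ k) ^ m = ∑ k ∈ range K, y ^ k := by
        refine sum_congr rfl fun k _ => ?_
        rw [hy, mul_pow, ← pow_mul, ← pow_mul, ← pow_mul, ← pow_mul]
        rw [mul_comm k v, mul_comm k m]
        ring
      rw [e1]
      by_cases hy1 : y = 1
      · rw [hy1]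
        simp only [one_pow, sum_const, card_range, nsmul_eq_mul, mul_one]
        rw [div_self hK0, Complex.one_re]
        split_ifs <;> norm_num
      · have hyK : y ^ K = 1 := by
          rw [hy, mul_pow, ← pow_mul, ← pow_mul, mul_comm m K, mul_comm v K, pow_mul, pow_mul,
            hprim.pow_eq_one, inv_pow, hprim.pow_eq_one]
          simp
        rw [geom_sum_eq hy1, hyK, sub_self, zero_div, zero_div, Complex.zero_re]
        rw [if_neg]
        rintro rfl
        apply hy1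
        rw [hy, ← mul_pow, mul_inv_cancel₀ hz0, one_pow]
    have hlim : Tendsto (fun N : ℕ => (∑ n ∈ range N, (∑ k ∈ range K, ((z⁻¹) ^ k) ^ v * (z ^ k) ^ a n) / K) / (N : ℂ))
        atTop (𝓝 (1 / K)) := by
      have h1 : ∀ k ∈ range K, Tendsto (fun N : ℕ => (∑ n ∈ range N, (((z⁻¹) ^ k) ^ v / K) * (z ^ k) ^ (a n + 0)) / (N : ℂ))
          atTop (𝓝 (if k = 0 then 1 / (K : ℂ) else 0)) := by
        intro k hk
        split_ifs with hk0
        · subst hk0
          simpa using mean_one (1 / (K : ℂ))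
        · refine Erg.zpow ha (by rw [norm_pow, hzn, one_pow]) ?_ _ 0
          rw [mem_range] at hk
          exact hprim.pow_ne_one_of_pos_of_lt hk0 hk
      have h2 := tendsto_finsetSum (range K) h1
      rw [sum_ite_eq' (range K) 0 (fun _ => 1 / (K : ℂ)), if_pos (mem_range.2 hK)] at h2
      refine h2.congr fun N => ?_
      rw [← sum_div, sum_comm]
      congr 1
      refine sum_congr rfl fun n _ => ?_
      rw [sum_div]
      refine sum_congr rfl fun k _ => ?_
      rw [add_zero]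
      ring
    have hre := (Complex.continuous_re.tendsto _).comp hlim
    have hlt : (1 / (K : ℂ)).re < 2 / K := by
      have : (1 / (K : ℂ)) = ((1 / (K : ℝ) : ℝ) : ℂ) := by push_cast; rfl
      rw [this, Complex.ofReal_re]
      gcongr
      norm_num
    filter_upwards [hre.eventually (gt_mem_nhds hlt)] with N hN
    refine lt_of_le_of_lt ?_ hN
    simp only [Function.comp_apply]
    have e2 : ∀ (x : ℂ), (x / (N : ℂ)).re = x.re / (N : ℝ) := by
      intro x
      rw [show (N : ℂ) = ((N : ℝ) : ℂ) by push_cast; rfl, Complex.div_ofReal_re]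
    rw [e2, Complex.re_sum]
    have h3 := sum_le_sum fun n (_ : n ∈ range N) => hF (a n)
    gcongr
  rw [Metric.tendsto_atTop]
  intro ε hε
  obtain ⟨K, hK⟩ := exists_nat_gt (2 / ε)
  have hK0 : (0 : ℝ) < K := lt_trans (by positivity) hK
  have hK1 : 1 ≤ K := by exact_mod_cast hK0
  obtain ⟨N0, hN0⟩ := eventually_atTop.1 (key K hK1)
  refine ⟨N0, fun N hN => ?_⟩
  rw [Real.dist_eq, sub_zero, abs_of_nonneg]
  · refine (hN0 N hN).trans ?_
    rw [div_lt_iff₀ hK0]
    rw [div_lt_iff₀ hε] at hK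
    linarith
  · refine div_nonneg (sum_nonneg fun n _ => ?_) (Nat.cast_nonneg _)
    split_ifs <;> norm_num

/-- small values have frequency zero -/
theorem Erg.freq_lt {a : ℕ → ℕ} (ha : Erg a) (A : ℕ) :
    Tendsto (fun N : ℕ => (∑ n ∈ range N, if a n < A then (1 : ℝ) else 0) / (N : ℝ)) atTop (𝓝 0) := by
  have h1 := tendsto_finsetSum (range A) fun v _ => ha.freq v
  rw [sum_const_zero] at h1
  refine h1.congr fun N => ?_
  rw [← sum_div, sum_comm]
  congr 1
  refine sum_congr rfl fun n _ => ?_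
  rw [Finset.sum_ite_eq (range A) (a n) (fun _ => (1 : ℝ))]
  simp only [mem_range]

/-- **Mean values of squares.** -/
theorem mean_sq {I : Type*} {w : I → ℂ} (hw : Summable fun i => ‖w i‖) {e : ℕ → I → ℂ} {B : ℝ}
    (he : ∀ n i, ‖e n i‖ ≤ B) (a : ℕ → ℕ) {δ : I → I → ℂ}
    (hδ : ∀ i j, Tendsto (fun N : ℕ => (∑ n ∈ range N, e (a n) i * e (a n) j) / (N : ℂ)) atTop (𝓝 (δ i j))) :
    Tendsto (fun N : ℕ => (∑ n ∈ range N, (∑' i, w i * e (a n) i) ^ 2) / (N : ℂ)) atTop
      (𝓝 (∑' p : I × I, w p.1 * w p.2 * δ p.1 p.2)) := by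
  rcases isEmpty_or_nonempty I with hI | ⟨⟨i0⟩⟩
  · have h1 : (∑' p : I × I, w p.1 * w p.2 * δ p.1 p.2) = 0 := by simp
    rw [h1]
    have h2 : (fun N : ℕ => (∑ n ∈ range N, (∑' i, w i * e (a n) i) ^ 2) / (N : ℂ)) = fun _ => 0 := by
      ext N
      simp
    rw [h2]
    exact tendsto_const_nhds
  have hB : 0 ≤ B := (norm_nonneg _).trans (he 0 i0)
  have hsn : ∀ n, Summable fun i => ‖w i * e n i‖ := by
    intro n
    refine Summable.of_nonneg_of_le (fun i => norm_nonneg _) (fun i => ?_) (hw.mul_right B)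
    rw [norm_mul]
    gcongr
    exact he n i
  have h1 : ∀ n, (∑' i, w i * e n i) ^ 2 = ∑' p : I × I, w p.1 * w p.2 * (e n p.1 * e n p.2) := by
    intro n
    rw [pow_two, tsum_mul_tsum_of_summable_norm (hsn n) (hsn n)]
    refine tsum_congr fun p => ?_
    ring
  have hww : Summable fun p : I × I => ‖w p.1‖ * ‖w p.2‖ := hw.mul_of_nonneg hw (fun _ => norm_nonneg _) (fun _ => norm_nonneg _)
  have hs2 : ∀ n, Summable fun p : I × I => w p.1 * w p.2 * (e n p.1 * e n p.2) := by
    intro n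
    refine Summable.of_norm_bounded (hww.mul_right (B * B)) fun p => ?_
    rw [norm_mul, norm_mul, norm_mul]
    gcongr
    · exact he n _
    · exact he n _
  have h2 : ∀ N : ℕ, (∑ n ∈ range N, (∑' i, w i * e (a n) i) ^ 2) / (N : ℂ) =
      ∑' p : I × I, w p.1 * w p.2 * ((∑ n ∈ range N, e (a n) p.1 * e (a n) p.2) / (N : ℂ)) := by
    intro N
    simp_rw [h1]
    rw [← Summable.tsum_finsetSum fun n _ => hs2 (a n), ← tsum_div_const]
    refine tsum_congr fun p => ?_
    rw [← mul_sum]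
    ring
  simp_rw [h2]
  refine tendsto_tsum_of_dominated_convergence (bound := fun p : I × I => ‖w p.1‖ * ‖w p.2‖ * (B * B))
    (hww.mul_right _) (fun p => (hδ p.1 p.2).const_mul _) (Eventually.of_forall fun N p => ?_)
  rw [norm_mul, norm_mul]
  gcongr
  rw [norm_div, Complex.norm_natCast]
  rcases Nat.eq_zero_or_pos N with hN | hN
  · rw [hN]
    simp
    positivity
  have hN' : (0 : ℝ) < N := by exact_mod_cast hN
  rw [div_le_iff₀ hN']
  refine (norm_sum_le _ _).trans ?_
  calc ∑ n ∈ range N, ‖e (a n) p.1 * e (a n) p.2‖ ≤ ∑ n ∈ range N, B * B := by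
        refine sum_le_sum fun n _ => ?_
        rw [norm_mul]
        gcongr
        · exact he _ _
        · exact he _ _
    _ = B * B * N := by
        rw [sum_const, card_range, nsmul_eq_mul]
        ring

end Run7.h278.WL
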