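import Pool.Agent.Run7.h278.WL.Off

set_option autoImplicit false

/-!
# RH and the roots; Fejer means
-/

namespace Run7.h278.WL

open Complex Filter Topology Finset Metric Pool.Agent.H24R2.JP Run7.h278.LI

theorem th_norm_RH (hRH : RiemannHypothesis) {v : ℂ} (hv : Fs v = 0) : ‖th v‖ = 1 := by
  have h := zi_norm hRH ⟨v, hv⟩
  unfold th
  split_ifs
  · exact h
  · rw [norm_inv, h, inv_one]

theorem exists_off (h : ¬RiemannHypothesis) : ∃ v : ℂ, Fs v = 0 ∧ 1 < ‖th v‖ := by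
  obtain ⟨s, hs, hx⟩ := exists_zero h
  have hF : Fs (s * (s - 1)) = 0 := by
    unfold Fs
    rw [xi_XX] at hx
    have h1 : XX (s - 1 / 2) = 0 := by
      have h8 : (8 : ℂ) ≠ 0 := by norm_num
      rcases div_eq_zero_iff.1 hx with h2 | h2
      · exact h2
      · exact absurd h2 h8
    rw [← b1.2.1] at h1
    rw [← h1]
    congr 1
    ring
  refine ⟨s * (s - 1), hF, ?_⟩
  have hv0 := zero_ne hF
  have hs0 : s ≠ 0 := fun h0 => by rw [h0] at hs; simp at hs; linarith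
  have hs1 : s - 1 ≠ 0 := fun h0 => hv0 (by rw [h0, mul_zero])
  refine lt_of_le_of_ne (th_ge hv0) fun hne => ?_
  -- the root is `(s - 1) / s` or its inverse
  have hz := th_ne hv0
  have h1 := th_sum hv0
  set z := th (s * (s - 1)) with hzd
  have h2 : (z - (s - 1) / s) * (z - s / (s - 1)) = 0 := by
    have h3 : z * z⁻¹ = 1 := mul_inv_cancel₀ hz
    have h4 : (s - 1) / s + s / (s - 1) = 2 + 1 / (s * (s - 1)) := by
      field_simp
      ring
    have h5 : ((s - 1) / s) * (s / (s - 1)) = 1 := by field_simp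
    linear_combination z * h1 - h3 - z * h4 + h5
  have hlt : ‖s - 1‖ < ‖s‖ := by
    rw [← sq_lt_sq₀ (norm_nonneg _) (norm_nonneg _), ← Complex.normSq_eq_norm_sq, ← Complex.normSq_eq_norm_sq,
      Complex.normSq_apply, Complex.normSq_apply]
    simp
    nlinarith
  have hsp : 0 < ‖s‖ := norm_pos_iff.2 hs0
  have hsp1 : 0 < ‖s - 1‖ := norm_pos_iff.2 hs1
  rcases mul_eq_zero.1 h2 with h3 | h3
  · have h4 : z = (s - 1) / s := by linear_combination h3
    rw [h4, norm_div, eq_div_iff hsp.ne'] at hne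
    linarith
  · have h4 : z = s / (s - 1) := by linear_combination h3
    rw [h4, norm_div, eq_div_iff hsp1.ne'] at hne
    linarith

/-- the second differences, with the central one -/
noncomputable def cc : ℕ → ℝ
  | 0 => 2 * li 1
  | n + 1 => dd n

noncomputable def e0 (n : ℕ) (v : ZI) : ℂ := zt v ^ n + ((zt v)⁻¹) ^ n

theorem cc_hasSum {Z : ℕ → Multiset ℂ} (hZ : Zeros Fs Z) (n : ℕ) : HasSum (fun v : ZI => wt v * e0 n v) ((cc n : ℝ) : ℂ) := by
  rcases n with _ | n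
  · have h := WL.hasSum_zero hZ
    rw [← hasSum_subtype_iff_of_support_subset support_sub] at h
    have e1 : ((cc 0 : ℝ) : ℂ) = 2 * lam 1 := by
      rw [lam_eq]
      unfold cc
      push_cast
      rfl
    rw [e1]
    have heq : (fun v : ZI => wt v * e0 0 v) = (fun v : ℂ => (mu Fs v : ℂ) * (-(1 / v) * 2)) ∘ ((↑) : {v : ℂ | Fs v = 0} → ℂ) := by
      funext v
      simp only [Function.comp_apply, wt, e0]
      rw [pow_zero, pow_zero]
      ring
    rw [heq]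
    exact h
  · exact dd_hasSum hZ n

/-- distance of natural numbers -/
def nd (j k : ℕ) : ℕ := (j - k) + (k - j)

theorem unit_nd {x : ℂ} (hx : ‖x‖ = 1) (j k : ℕ) :
    x ^ nd j k + (x⁻¹) ^ nd j k = x ^ j * (starRingEnd ℂ) (x ^ k) + x ^ k * (starRingEnd ℂ) (x ^ j) := by
  have hx0 : x ≠ 0 := fun h => by rw [h, norm_zero] at hx; exact zero_ne_one hx
  have hc : (starRingEnd ℂ) x = x⁻¹ := by
    rw [Complex.inv_def, Complex.normSq_eq_norm_sq, hx]
    simp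
  rw [map_pow, map_pow, hc]
  have key : ∀ j k : ℕ, k ≤ j → x ^ nd j k + (x⁻¹) ^ nd j k = x ^ j * (x⁻¹) ^ k + x ^ k * (x⁻¹) ^ j := by
    intro j k hjk
    obtain ⟨d, rfl⟩ := Nat.exists_eq_add_of_le hjk
    have : nd (k + d) k = d := by unfold nd; omega
    rw [this, pow_add, pow_add]
    have h1 : x ^ k * (x⁻¹) ^ k = 1 := by rw [← mul_pow, mul_inv_cancel₀ hx0, one_pow]
    linear_combination (-(x ^ d) - (x⁻¹) ^ d) * h1
  rcases le_total k j with h | h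
  · exact key j k h
  · have h1 := key k j h
    have : nd j k = nd k j := by unfold nd; omega
    rw [this, h1]
    ring

theorem unit_sum {x : ℂ} (hx : ‖x‖ = 1) (N : ℕ) :
    ∑ j ∈ range N, ∑ k ∈ range N, (x ^ nd j k + (x⁻¹) ^ nd j k) = ((2 * ‖∑ j ∈ range N, x ^ j‖ ^ 2 : ℝ) : ℂ) := by
  have h1 : (((‖∑ j ∈ range N, x ^ j‖ ^ 2 : ℝ)) : ℂ) = ∑ j ∈ range N, ∑ k ∈ range N, x ^ j * (starRingEnd ℂ) (x ^ k) := by
    rw [← Complex.normSq_eq_norm_sq, ← Complex.mul_conj, map_sum, sum_mul_sum]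
  rw [Complex.ofReal_mul, h1]
  simp_rw [unit_nd hx, sum_add_distrib]
  have h2 : ∑ j ∈ range N, ∑ k ∈ range N, x ^ k * (starRingEnd ℂ) (x ^ j) =
      ∑ j ∈ range N, ∑ k ∈ range N, x ^ j * (starRingEnd ℂ) (x ^ k) := sum_comm
  rw [h2]
  push_cast
  ring

theorem double_sum {I : Type*} {u : I → ℝ} (hu0 : ∀ v, 0 ≤ u v) (hus : Summable u) {G : I × I → ℝ}
    (hG0 : ∀ p, 0 ≤ G p) {B : ℝ} (hGB : ∀ p, G p ≤ B) {g : ℝ} (hg : ∀ v, g ≤ G (v, v)) :
    g * ∑' v, u v ^ 2 ≤ ∑' p : I × I, u p.1 * u p.2 * G p := by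
  have huu : Summable fun p : I × I => u p.1 * u p.2 := hus.mul_of_nonneg hus hu0 hu0
  have hsG : Summable fun p : I × I => u p.1 * u p.2 * G p := by
    refine Summable.of_nonneg_of_le (fun p => mul_nonneg (mul_nonneg (hu0 _) (hu0 _)) (hG0 p)) (fun p => ?_)
      (huu.mul_right B)
    exact mul_le_mul_of_nonneg_left (hGB p) (mul_nonneg (hu0 _) (hu0 _))
  have hinj : Function.Injective (fun v : I => (v, v)) := fun v v' h => (Prod.mk.inj h).1
  have h7 : Summable fun v : I => u v * u v * G (v, v) := hsG.comp_injective hinj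
  have h8 : Summable fun v : I => u v ^ 2 := by
    have : Summable fun v : I => u v * u v := huu.comp_injective hinj
    refine this.congr fun v => ?_
    ring
  have h6 : ∑' v : I, u v * u v * G (v, v) ≤ ∑' p : I × I, u p.1 * u p.2 * G p :=
    Summable.tsum_le_tsum_of_inj (fun v : I => (v, v)) hinj
      (fun p _ => mul_nonneg (mul_nonneg (hu0 _) (hu0 _)) (hG0 p)) (fun v => le_rfl) h7 hsG
  refine le_trans ?_ h6
  rw [← tsum_mul_left]
  refine Summable.tsum_le_tsum (fun v => ?_) (h8.mul_left g) h7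
  calc g * u v ^ 2 = u v * u v * g := by ring
    _ ≤ _ := mul_le_mul_of_nonneg_left (hg v) (mul_nonneg (hu0 _) (hu0 _))

/-- double sums of squares -/
theorem sq_double {I : Type*} {w : I → ℂ} (hw : Summable fun i => ‖w i‖) {e : ℕ → I → ℂ} {B : ℝ}
    (he : ∀ n i, ‖e n i‖ ≤ B) (hB : 0 ≤ B) (N : ℕ) (d : ℕ → ℕ → ℕ) :
    ∑ j ∈ range N, ∑ k ∈ range N, (∑' i, w i * e (d j k) i) ^ 2 =
      ∑' p : I × I, w p.1 * w p.2 * ∑ j ∈ range N, ∑ k ∈ range N, e (d j k) p.1 * e (d j k) p.2 := by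
  have hsn : ∀ n, Summable fun v : I => ‖w v * e n v‖ := by
    intro n
    refine Summable.of_nonneg_of_le (fun i => norm_nonneg _) (fun i => ?_) (hw.mul_right B)
    rw [norm_mul]
    gcongr
    exact he n i
  have hww : Summable fun p : I × I => ‖w p.1‖ * ‖w p.2‖ := hw.mul_of_nonneg hw (fun _ => norm_nonneg _) (fun _ => norm_nonneg _)
  have hs2 : ∀ n, Summable fun p : I × I => w p.1 * w p.2 * (e n p.1 * e n p.2) := by
    intro n
    refine Summable.of_norm_bounded (hww.mul_right (B * B)) fun p => ?_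
    rw [norm_mul, norm_mul, norm_mul]
    gcongr
    · exact he n _
    · exact he n _
  have h1 : ∀ n, (∑' i, w i * e n i) ^ 2 = ∑' p : I × I, w p.1 * w p.2 * (e n p.1 * e n p.2) := by
    intro n
    rw [pow_two, tsum_mul_tsum_of_summable_norm (hsn n) (hsn n)]
    refine tsum_congr fun p => ?_
    ring
  have e1 : ∀ j ∈ range N, ∑ k ∈ range N, (∑' i, w i * e (d j k) i) ^ 2 = ∑' p : I × I, w p.1 * w p.2 *
      ∑ k ∈ range N, (e (d j k) p.1 * e (d j k) p.2) := by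
    intro j _
    simp_rw [h1]
    rw [← Summable.tsum_finsetSum fun k _ => hs2 (d j k)]
    refine tsum_congr fun p => ?_
    rw [mul_sum]
  rw [sum_congr rfl e1, ← Summable.tsum_finsetSum]
  · refine tsum_congr fun p => ?_
    rw [← mul_sum]
  · intro j _
    have : (fun p : I × I => w p.1 * w p.2 * ∑ k ∈ range N, (e (d j k) p.1 * e (d j k) p.2)) =
        fun p => ∑ k ∈ range N, w p.1 * w p.2 * (e (d j k) p.1 * e (d j k) p.2) := by
      funext p
      rw [mul_sum]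
    rw [this]
    exact summable_sum fun k _ => hs2 _

/-- the kernel -/
noncomputable def GG (N : ℕ) (z z' : ℂ) : ℝ := 2 * ‖∑ j ∈ range N, (z * z') ^ j‖ ^ 2 + 2 * ‖∑ j ∈ range N, (z * z'⁻¹) ^ j‖ ^ 2

theorem GG_eq (N : ℕ) {z z' : ℂ} (hz : ‖z‖ = 1) (hz' : ‖z'‖ = 1) :
    ∑ j ∈ range N, ∑ k ∈ range N, (z ^ nd j k + (z⁻¹) ^ nd j k) * (z' ^ nd j k + (z'⁻¹) ^ nd j k) = ((GG N z z' : ℝ) : ℂ) := by
  have m1 : ‖z * z'‖ = 1 := by rw [norm_mul, hz, hz', one_mul]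
  have m2 : ‖z * z'⁻¹‖ = 1 := by rw [norm_mul, norm_inv, hz, hz']; norm_num
  unfold GG
  rw [Complex.ofReal_add, ← unit_sum m1, ← unit_sum m2, ← sum_add_distrib]
  refine sum_congr rfl fun j _ => ?_
  rw [← sum_add_distrib]
  refine sum_congr rfl fun k _ => ?_
  rw [mul_inv, mul_inv, inv_inv, mul_pow, mul_pow, mul_pow, mul_pow]
  ring

theorem GG_nonneg (N : ℕ) (z z' : ℂ) : 0 ≤ GG N z z' := by
  unfold GG
  positivity

theorem GG_le (N : ℕ) {z z' : ℂ} (hz : ‖z‖ = 1) (hz' : ‖z'‖ = 1) : GG N z z' ≤ 4 * (N : ℝ) ^ 2 := by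
  have hb : ∀ x : ℂ, ‖x‖ = 1 → ‖∑ j ∈ range N, x ^ j‖ ≤ N := by
    intro x hx
    refine (norm_sum_le _ _).trans ?_
    simp [hx]
  have b1 := hb (z * z') (by rw [norm_mul, hz, hz', one_mul])
  have b2 := hb (z * z'⁻¹) (by rw [norm_mul, norm_inv, hz, hz']; norm_num)
  have c1 : ‖∑ j ∈ range N, (z * z') ^ j‖ ^ 2 ≤ (N : ℝ) ^ 2 := by gcongr
  have c2 : ‖∑ j ∈ range N, (z * z'⁻¹) ^ j‖ ^ 2 ≤ (N : ℝ) ^ 2 := by gcongr
  unfold GG
  linarith

theorem GG_diag (N : ℕ) {z : ℂ} (hz : z ≠ 0) : 2 * (N : ℝ) ^ 2 ≤ GG N z z := by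
  unfold GG
  simp only [mul_inv_cancel₀ hz, one_pow, sum_const, card_range, nsmul_eq_mul, mul_one, Complex.norm_natCast]
  have : 0 ≤ 2 * ‖∑ j ∈ range N, (z * z) ^ j‖ ^ 2 := by positivity
  linarith

theorem fejer_eq (hRH : RiemannHypothesis) (N : ℕ) : ∑ j ∈ range N, ∑ k ∈ range N, cc (nd j k) ^ 2 =
    ∑' p : ZI × ZI, ((mu Fs p.1 : ℝ) * ‖1 / (p.1 : ℂ)‖) * ((mu Fs p.2 : ℝ) * ‖1 / (p.2 : ℂ)‖) * GG N (zt p.1) (zt p.2) := by
  obtain ⟨Z, hZ⟩ := exists_Zs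
  have hw := wt_summable hZ
  have heb : ∀ n (v : ZI), ‖e0 n v‖ ≤ 2 := by
    intro n v
    unfold e0
    refine (norm_add_le _ _).trans ?_
    rw [norm_pow, norm_pow, norm_inv, zi_norm hRH v]
    norm_num
  have h2 := sq_double hw heb (by norm_num) N nd
  have h4 : ((∑ j ∈ range N, ∑ k ∈ range N, cc (nd j k) ^ 2 : ℝ) : ℂ) = ((∑' p : ZI × ZI,
      ((mu Fs p.1 : ℝ) * ‖1 / (p.1 : ℂ)‖) * ((mu Fs p.2 : ℝ) * ‖1 / (p.2 : ℂ)‖) * GG N (zt p.1) (zt p.2) : ℝ) : ℂ) := by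
    have e1 : ((∑ j ∈ range N, ∑ k ∈ range N, cc (nd j k) ^ 2 : ℝ) : ℂ) =
        ∑ j ∈ range N, ∑ k ∈ range N, (∑' v : ZI, wt v * e0 (nd j k) v) ^ 2 := by
      rw [Complex.ofReal_sum]
      refine sum_congr rfl fun j _ => ?_
      rw [Complex.ofReal_sum]
      refine sum_congr rfl fun k _ => ?_
      rw [Complex.ofReal_pow, (cc_hasSum hZ _).tsum_eq]
    rw [e1, h2, Complex.ofReal_tsum]
    refine tsum_congr fun p => ?_
    have e2 : ∑ j ∈ range N, ∑ k ∈ range N, e0 (nd j k) p.1 * e0 (nd j k) p.2 = ((GG N (zt p.1) (zt p.2) : ℝ) : ℂ) :=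
      GG_eq N (zi_norm hRH p.1) (zi_norm hRH p.2)
    rw [e2, wt_real hRH, wt_real hRH, ← Complex.ofReal_mul, ← Complex.ofReal_mul]
  exact Complex.ofReal_injective h4

/-- **Finite certificates.** -/
theorem fejer (hRH : RiemannHypothesis) (N : ℕ) : (N : ℝ) ^ 2 * LL ≤ ∑ j ∈ range N, ∑ k ∈ range N, cc (nd j k) ^ 2 := by
  obtain ⟨Z, hZ⟩ := exists_Zs
  have hw := wt_summable hZ
  have hus : Summable fun v : ZI => (mu Fs v : ℝ) * ‖1 / (v : ℂ)‖ := by
    refine hw.congr fun v => ?_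
    unfold wt
    rw [norm_mul, norm_neg, Complex.norm_natCast]
  have h := double_sum (u := fun v : ZI => (mu Fs v : ℝ) * ‖1 / (v : ℂ)‖) (fun v => by positivity) hus
    (G := fun p => GG N (zt p.1) (zt p.2)) (fun p => GG_nonneg _ _ _) (B := 4 * (N : ℝ) ^ 2)
    (fun p => GG_le N (zi_norm hRH p.1) (zi_norm hRH p.2)) (g := 2 * (N : ℝ) ^ 2)
    (fun v => GG_diag N (zt_ne (zero_ne v.2)))
  rw [fejer_eq hRH]
  refine le_trans (le_of_eq ?_) h
  unfold LL
  rw [tsum_mul_left]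
  ring

end Run7.h278.WL
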