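import Pool.Agent.H24R2.JP.Had

set_option autoImplicit false

/-!
# Partial fractions of the logarithmic derivative of an entire function of order less than one
-/

namespace Run7.h278.WL

open Complex Filter Topology Metric Pool.Agent.H24R2.JP Pool.Agent.Helper242.KK

/-- multiplicities -/
noncomputable def mu (f : ℂ → ℂ) (u : ℂ) : ℕ := analyticOrderNatAt f u

theorem ne_top {f : ℂ → ℂ} (hf : Differentiable ℂ f) (h0 : f 0 ≠ 0) (z : ℂ) : analyticOrderAt f z ≠ ⊤ := by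
  intro h
  have h1 : AnalyticOnNhd ℂ f Set.univ := fun x _ => hf.analyticAt x
  have h2 := analyticOrderAt_eq_top.1 h
  have h3 := h1.eqOn_zero_of_preconnected_of_eventuallyEq_zero isPreconnected_univ (Set.mem_univ z) h2
  exact h0 (h3 (Set.mem_univ 0))

theorem mu_pos {f : ℂ → ℂ} (hf : Differentiable ℂ f) (h0 : f 0 ≠ 0) (z : ℂ) : mu f z ≠ 0 ↔ f z = 0 := by
  unfold mu
  have h1 := ne_top hf h0 z
  have h2 : ((analyticOrderNatAt f z : ℕ) : ℕ∞) = analyticOrderAt f z := ENat.natCast_toNat h1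
  rw [← (hf.analyticAt z).analyticOrderAt_ne_zero, ← h2]
  exact_mod_cast Iff.rfl

theorem mu_lin (u z : ℂ) (hu : u ≠ 0) : analyticOrderAt (fun w : ℂ => 1 - w / u) z = if z = u then 1 else 0 := by
  split_ifs with h
  · subst h
    have h1 : AnalyticAt ℂ (fun w : ℂ => 1 - w / z) z := by fun_prop
    rw [show (1 : ℕ∞) = ((1 : ℕ) : ℕ∞) by rfl, h1.analyticOrderAt_eq_natCast]
    refine ⟨fun _ => -1 / z, analyticAt_const, by simpa using hu, ?_⟩
    filter_upwards with w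
    rw [smul_eq_mul]
    field_simp
    ring
  · have h1 : AnalyticAt ℂ (fun w : ℂ => 1 - w / u) z := by fun_prop
    rw [h1.analyticOrderAt_eq_zero]
    intro h2
    apply h
    have h3 : z / u = 1 := by linear_combination -h2
    rwa [div_eq_one_iff_eq hu] at h3

theorem split {ρ M : ℝ} (hρ : 0 < ρ) (n : ℕ) : ∀ F : ℂ → ℂ, Differentiable ℂ F → F 0 ≠ 0 →
    (∀ w ∈ closedBall (0 : ℂ) (2 * ρ), ‖F w‖ ≤ Real.exp M) →
    (∑ᶠ u, (MeromorphicOn.divisor F (closedBall 0 ρ) u : ℝ) * 1) ≤ n →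
    ∃ (Z : Multiset ℂ) (G : ℂ → ℂ), Differentiable ℂ G ∧ G 0 = F 0 ∧
      (∀ w ∈ closedBall (0 : ℂ) (2 * ρ), ‖G w‖ ≤ Real.exp M) ∧
      (∀ w, F w = (Z.map fun u => 1 - w / u).prod * G w) ∧
      (∀ u ∈ Z, ‖u‖ ≤ ρ ∧ u ≠ 0) ∧
      (∀ u ∈ closedBall (0 : ℂ) ρ, G u ≠ 0) ∧
      (∀ u, analyticOrderAt F u = Z.count u + analyticOrderAt G u) := by
  induction n with
  | zero =>
    intro F hF h0 hb hn
    by_cases hz : ∀ u ∈ closedBall (0 : ℂ) ρ, F u ≠ 0
    · exact ⟨0, F, hF, rfl, hb, fun w => by simp, by simp, hz, fun u => by simp⟩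
    · exfalso
      push Not at hz
      obtain ⟨u, hu, hFu⟩ := hz
      obtain ⟨G, hG, hG0, hGb, hFG, hdiv⟩ := lnz_split hF hρ h0 hb hu hFu
      rw [lnz_sum_split ρ u (fun _ => 1) hdiv] at hn
      have h2 : 0 ≤ ∑ᶠ u, (MeromorphicOn.divisor G (closedBall 0 ρ) u : ℝ) * 1 := by
        refine finsum_nonneg (fun u => mul_nonneg ?_ zero_le_one)
        exact_mod_cast lnz_divisor_nonneg hG _ u
      norm_num at hn
      norm_num at h2
      linarith
  | succ n ih =>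
    intro F hF h0 hb hn
    by_cases hz : ∀ u ∈ closedBall (0 : ℂ) ρ, F u ≠ 0
    · exact ⟨0, F, hF, rfl, hb, fun w => by simp, by simp, hz, fun u => by simp⟩
    push Not at hz
    obtain ⟨u, hu, hFu⟩ := hz
    obtain ⟨G, hG, hG0, hGb, hFG, hdiv⟩ := lnz_split hF hρ h0 hb hu hFu
    have hu0 : u ≠ 0 := by
      rintro rfl
      exact h0 hFu
    rw [lnz_sum_split ρ u (fun _ => 1) hdiv] at hn
    obtain ⟨Z, G', k1, k2, k3, k4, k5, k6, k7⟩ := ih G hG (by rw [hG0]; exact h0) hGb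
      (by push_cast at hn; linarith)
    refine ⟨u ::ₘ Z, G', k1, k2.trans hG0, k3, ?_, ?_, k6, ?_⟩
    · intro w
      rw [hFG w, k4 w, Multiset.map_cons, Multiset.prod_cons]
      ring
    · intro v hv
      rcases Multiset.mem_cons.1 hv with rfl | hv
      · exact ⟨by simpa using hu, hu0⟩
      · exact k5 v hv
    · intro v
      have e : F = (fun w => 1 - w / u) * G := funext hFG
      rw [e, analyticOrderAt_mul (by fun_prop) (hG.analyticAt v), k7 v, mu_lin u v hu0,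
        Multiset.count_cons]
      split_ifs with h
      · push_cast
        ring
      · simp

/-- The zeros in the discs around `0`. -/
structure Zeros (f : ℂ → ℂ) (Z : ℕ → Multiset ℂ) : Prop where
  mem : ∀ N, ∀ u ∈ Z N, ‖u‖ ≤ (N : ℝ) + 1 ∧ u ≠ 0
  cnt : ∀ (N : ℕ) (u : ℂ), ‖u‖ ≤ (N : ℝ) + 1 → (Z N).count u = mu f u
  lim : TendstoLocallyUniformly (fun (N : ℕ) (x : ℂ) => f 0 * ((Z N).map fun u => 1 - x / u).prod) f atTop

theorem exists_zeros (f : ℂ → ℂ) (K : ℝ) (hf : Differentiable ℂ f) (h0 : f 0 ≠ 0)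
    (hb : ∀ x, ‖f x‖ ≤ Real.exp (K * (1 + ‖x‖) ^ (3 / 4 : ℝ))) : ∃ Z : ℕ → Multiset ℂ, Zeros f Z := by
  set K' : ℝ := max K 0 with hK'
  have hK0 : 0 ≤ K' := le_max_right _ _
  have hbr : ∀ r : ℝ, ∀ w : ℂ, ‖w‖ ≤ r → ‖f w‖ ≤ Real.exp (K' * (1 + r) ^ (3/4 : ℝ)) := by
    intro r w hw
    refine (hb w).trans (Real.exp_le_exp.2 ?_)
    calc K * (1 + ‖w‖) ^ (3/4 : ℝ) ≤ K' * (1 + ‖w‖) ^ (3/4 : ℝ) :=
          mul_le_mul_of_nonneg_right (le_max_left _ _)
            (Real.rpow_nonneg (by linarith [norm_nonneg w]) _)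
      _ ≤ K' * (1 + r) ^ (3/4 : ℝ) :=
          mul_le_mul_of_nonneg_left (Real.rpow_le_rpow (by linarith [norm_nonneg w])
            (by linarith) (by norm_num)) hK0
  set c : ℝ := |Real.log ‖f 0‖| with hc
  have main : ∀ N : ℕ, ∃ (Z : Multiset ℂ) (L : ℂ → ℂ), (∀ u ∈ Z, ‖u‖ ≤ (N : ℝ) + 1 ∧ u ≠ 0) ∧
      (∀ u : ℂ, ‖u‖ ≤ (N : ℝ) + 1 → Z.count u = mu f u) ∧
      ∀ w : ℂ, ‖w‖ < (N : ℝ) + 1 → f w = (f 0 * (Z.map fun u => 1 - w / u).prod) * cexp (L w) ∧
        ‖L w‖ ≤ 2 * (K' * (1 + 2 * ((N : ℝ) + 1)) ^ (3/4 : ℝ) + c) *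
          (‖w‖ / (((N : ℝ) + 1) - ‖w‖)) := by
    intro N
    have hρ : 0 < (N : ℝ) + 1 := by positivity
    obtain ⟨n, hn⟩ := exists_nat_ge
      (∑ᶠ u, (MeromorphicOn.divisor f (closedBall 0 ((N : ℝ) + 1)) u : ℝ) * 1)
    obtain ⟨Z, G, hG, hG0, hGb, hFG, hm, hnz, hord⟩ := split (M := K' * (1 + 2 * ((N : ℝ) + 1)) ^
      (3/4 : ℝ)) hρ n f hf h0 (fun w hw => hbr _ w (by simpa using hw)) hn
    obtain ⟨L, hA, hL⟩ := had_base hG hρ (fun u hu => hnz u (ball_subset_closedBall hu))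
      (fun w hw => hGb w (ball_subset_closedBall (ball_subset_ball (by linarith) hw)))
    refine ⟨Z, L, hm, ?_, ?_⟩
    · intro u hu
      have h1 : analyticOrderAt G u = 0 := (hG.analyticAt u).analyticOrderAt_eq_zero.2
        (hnz u (by simpa using hu))
      have h2 := hord u
      rw [h1, add_zero] at h2
      unfold mu analyticOrderNatAt
      rw [h2]
      simp
    · intro w hw
      obtain ⟨h1, h2⟩ := hL w hw
      constructor
      · rw [hFG w, h1, hG0]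
        ring
      · refine h2.trans ?_
        apply mul_le_mul_of_nonneg_right _ (div_nonneg (norm_nonneg _) (by linarith))
        rw [hG0]
        have := neg_abs_le (Real.log ‖f 0‖)
        linarith
  choose Z L h1 h1' h2 using main
  refine ⟨Z, h1, h1', ?_⟩
  rw [Metric.tendstoLocallyUniformly_iff]
  intro ε hε x
  set r : ℝ := ‖x‖ + 1 with hr
  have hr0 : 0 < r := by positivity
  set B : ℝ := Real.exp (K' * (1 + r) ^ (3/4 : ℝ)) with hB
  have hB0 : 0 < B := Real.exp_pos _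
  refine ⟨ball 0 r, ?_, ?_⟩
  · apply isOpen_ball.mem_nhds
    simp [hr]
  have hδ : 0 < min 1 (ε / (2 * B)) := by positivity
  filter_upwards [had_lim hK0 hr0 (abs_nonneg (Real.log ‖f 0‖)) hδ] with N hN
  intro y hy
  have hyr : ‖y‖ < r := by simpa using hy
  obtain ⟨hN1, hN2⟩ := hN
  obtain ⟨h3, h4⟩ := h2 N y (hyr.trans hN1)
  have h5 : ‖y‖ / (((N : ℝ) + 1) - ‖y‖) ≤ r / (((N : ℝ) + 1) - r) := by
    apply div_le_div₀ hr0.le hyr.le (by linarith) (by linarith)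
  have h6 : 0 ≤ 2 * (K' * (1 + 2 * ((N : ℝ) + 1)) ^ (3/4 : ℝ) + c) := by positivity
  have h7 : ‖L N y‖ < min 1 (ε / (2 * B)) :=
    lt_of_le_of_lt (h4.trans (mul_le_mul_of_nonneg_left h5 h6)) hN2
  have h8 : ‖cexp (-(L N y)) - 1‖ ≤ 2 * ‖L N y‖ := by
    have := Complex.norm_exp_sub_one_le (x := -(L N y)) (by
      rw [norm_neg]
      exact (h7.trans_le (min_le_left _ _)).le)
    rwa [norm_neg] at this
  have h9 : f 0 * ((Z N).map fun u => 1 - y / u).prod = f y * cexp (-(L N y)) := by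
    rw [h3, mul_assoc, ← Complex.exp_add]
    simp
  rw [h9, dist_eq_norm, show f y - f y * cexp (-(L N y)) = -(f y * (cexp (-(L N y)) - 1)) by ring, norm_neg, norm_mul]
  have h10 : ‖f y‖ ≤ B := hbr r y hyr.le
  calc ‖f y‖ * ‖cexp (-(L N y)) - 1‖ ≤ B * (2 * ‖L N y‖) := by gcongr
    _ < B * (2 * (ε / (2 * B))) := by
        have := h7.trans_le (min_le_right _ _)
        gcongr
    _ = ε := by field_simp

end Run7.h278.WL
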