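import Pool.Agent.Run7.h278.WL.Pf2
import Pool.Agent.Run7.h278.LI.Pos

set_option autoImplicit false

/-!
# The second differences of the Li coefficients as sums over the zeros
-/

namespace Run7.h278.WL

open Complex Filter Topology Metric Pool.Agent.H24R2.JP Run7.h278.LI

/-- a root of `ζ + 1 / ζ = 2 + 1 / v` -/
noncomputable def zt (v : ℂ) : ℂ := ((v + 1 / 4) ^ (1 / 2 : ℂ) - 1 / 2) / ((v + 1 / 4) ^ (1 / 2 : ℂ) + 1 / 2)

theorem sqrt_sq (v : ℂ) : ((v + 1 / 4) ^ (1 / 2 : ℂ)) ^ 2 = v + 1 / 4 := by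
  rw [← Complex.cpow_nat_mul]
  norm_num

theorem zt_aux {v : ℂ} (hv : v ≠ 0) : ((v + 1 / 4) ^ (1 / 2 : ℂ) - 1 / 2) ≠ 0 ∧ ((v + 1 / 4) ^ (1 / 2 : ℂ) + 1 / 2) ≠ 0 := by
  have h := sqrt_sq v
  constructor
  · intro h1
    apply hv
    have h2 : (v + 1 / 4) ^ (1 / 2 : ℂ) = 1 / 2 := by linear_combination h1
    rw [h2] at h
    linear_combination -h
  · intro h1
    apply hv
    have h2 : (v + 1 / 4) ^ (1 / 2 : ℂ) = -(1 / 2) := by linear_combination h1
    rw [h2] at h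
    linear_combination -h

theorem zt_ne {v : ℂ} (hv : v ≠ 0) : zt v ≠ 0 := div_ne_zero (zt_aux hv).1 (zt_aux hv).2

theorem zt_sum {v : ℂ} (hv : v ≠ 0) : zt v + (zt v)⁻¹ = 2 + 1 / v := by
  obtain ⟨h1, h2⟩ := zt_aux hv
  unfold zt
  have h := sqrt_sq v
  set q := (v + 1 / 4) ^ (1 / 2 : ℂ) with hq
  rw [inv_div]
  have h3 : (q - 1 / 2) * (q + 1 / 2) = v := by linear_combination h
  have h4 : (q - 1 / 2) / (q + 1 / 2) + (q + 1 / 2) / (q - 1 / 2) =
      ((q - 1 / 2) ^ 2 + (q + 1 / 2) ^ 2) / ((q - 1 / 2) * (q + 1 / 2)) := by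
    rw [div_add_div _ _ h2 h1, mul_comm (q + 1 / 2) (q - 1 / 2)]
    congr 1
    ring
  rw [h4, h3, show (q - 1 / 2) ^ 2 + (q + 1 / 2) ^ 2 = 2 * v + 1 by linear_combination 2 * h]
  field_simp

/-- the coefficients of one factor -/
theorem factor_cf {v : ℂ} (hv : v ≠ 0) (n : ℕ) :
    cf (fun z => 1 - z / (1 - z) ^ 2 / v) n = 2 - zt v ^ (n + 1) - ((zt v)⁻¹) ^ (n + 1) ∧
      AnalyticAt ℂ (fun z : ℂ => 1 - z / (1 - z) ^ 2 / v) 0 ∧ (fun z : ℂ => 1 - z / (1 - z) ^ 2 / v) 0 ≠ 0 := by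
  set a := zt v with ha
  have ha0 : a ≠ 0 := zt_ne hv
  have hs : a + a⁻¹ = 2 + 1 / v := zt_sum hv
  have A1 : AnalyticAt ℂ (fun z : ℂ => 1 - z / (1 - z) ^ 2 / v) 0 := by
    refine AnalyticAt.sub analyticAt_const (AnalyticAt.div (AnalyticAt.div (by fun_prop) (by fun_prop) ?_) (by fun_prop) hv)
    norm_num
  have N1 : (fun z : ℂ => 1 - z / (1 - z) ^ 2 / v) 0 ≠ 0 := by simp
  refine ⟨?_, A1, N1⟩
  have A2 : ∀ b : ℂ, AnalyticAt ℂ (fun z : ℂ => z - b) 0 := fun b => by fun_prop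
  have N2 : ∀ b : ℂ, b ≠ 0 → (fun z : ℂ => z - b) 0 ≠ 0 := fun b hb => by simpa using hb
  have key : (fun z : ℂ => (1 - z / (1 - z) ^ 2 / v) * ((z - 1) * (z - 1))) =ᶠ[𝓝 0]
      fun z => (z - a) * (z - a⁻¹) := by
    have h1 : ∀ᶠ z : ℂ in 𝓝 0, z ∈ ball (0 : ℂ) 1 := isOpen_ball.mem_nhds (mem_ball_self one_pos)
    filter_upwards [h1] with z hz
    have h2 := one_sub_ne hz
    have h3 : a * a⁻¹ = 1 := mul_inv_cancel₀ ha0
    have e1 : (z - a) * (z - a⁻¹) = z ^ 2 - (2 + 1 / v) * z + 1 := by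
      linear_combination (-z) * hs + h3
    rw [e1]
    field_simp
    ring
  have e2 := cf_congr key n
  have A3 : ∀ b c : ℂ, AnalyticAt ℂ (fun z : ℂ => (z - b) * (z - c)) 0 := fun b c => by fun_prop
  have N3 : ∀ b c : ℂ, b ≠ 0 → c ≠ 0 → (fun z : ℂ => (z - b) * (z - c)) 0 ≠ 0 := fun b c hb hc => by
    simpa using ⟨hb, hc⟩
  have C3 : ∀ b c : ℂ, b ≠ 0 → c ≠ 0 → cf (fun z : ℂ => (z - b) * (z - c)) n =
      -(b⁻¹) ^ (n + 1) + -(c⁻¹) ^ (n + 1) := fun b c hb hc => by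
    rw [cf_mul (A2 b) (A2 c) (N2 b hb) (N2 c hc), cf_lin, cf_lin]
  rw [cf_mul A1 (A3 1 1) N1 (N3 1 1 one_ne_zero one_ne_zero), C3 _ _ ha0 (inv_ne_zero ha0),
    C3 _ _ one_ne_zero one_ne_zero, inv_inv, inv_one, one_pow] at e2
  linear_combination e2

theorem prod_cf (Y : Multiset ℂ) (hY : ∀ v ∈ Y, v ≠ 0) {c : ℂ} (hc : c ≠ 0) (n : ℕ) :
    cf (fun z => c * (Y.map (fun v => 1 - z / (1 - z) ^ 2 / v)).prod) n =
      (Y.map fun v => 2 - zt v ^ (n + 1) - ((zt v)⁻¹) ^ (n + 1)).sum ∧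
    AnalyticAt ℂ (fun z : ℂ => c * (Y.map (fun v => 1 - z / (1 - z) ^ 2 / v)).prod) 0 ∧
    (fun z : ℂ => c * (Y.map (fun v => 1 - z / (1 - z) ^ 2 / v)).prod) 0 ≠ 0 := by
  induction Y using Multiset.induction_on with
  | empty =>
    refine ⟨?_, by simpa using analyticAt_const, by simpa using hc⟩
    simp only [Multiset.map_zero, Multiset.prod_zero, mul_one, Multiset.sum_zero]
    exact cf_const c n
  | cons v Y ih =>
    obtain ⟨k1, k2, k3⟩ := ih fun x hx => hY x (Multiset.mem_cons_of_mem hx)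
    obtain ⟨j1, j2, j3⟩ := factor_cf (hY v (Multiset.mem_cons_self v Y)) n
    have e : (fun z : ℂ => c * ((v ::ₘ Y).map (fun v => 1 - z / (1 - z) ^ 2 / v)).prod) =
        fun z => (1 - z / (1 - z) ^ 2 / v) * (c * (Y.map (fun v => 1 - z / (1 - z) ^ 2 / v)).prod) := by
      ext z
      rw [Multiset.map_cons, Multiset.prod_cons]
      ring
    rw [e]
    refine ⟨?_, j2.mul k2, mul_ne_zero j3 k3⟩
    rw [cf_mul j2 k2 j3 k3, j1, k1, Multiset.map_cons, Multiset.sum_cons]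

section

variable {f : ℂ → ℂ} {Z : ℕ → Multiset ℂ} (hf : Differentiable ℂ f) (h0 : f 0 ≠ 0) (hZ : Zeros f Z)

include hf h0 hZ

/-- the Taylor coefficients as limits -/
theorem cf_lim (n : ℕ) : Tendsto (fun N => ((Z N).map fun v => 2 - zt v ^ (n + 1) - ((zt v)⁻¹) ^ (n + 1)).sum) atTop
    (𝓝 (cf (fun z => f (z / (1 - z) ^ 2)) n)) := by
  -- a small disc
  have hkc : ContinuousAt (fun z : ℂ => z / (1 - z) ^ 2) 0 := by
    refine ContinuousAt.div (by fun_prop) (by fun_prop) (by norm_num)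
  have h1 : ∀ᶠ z in 𝓝 (0 : ℂ), f (z / (1 - z) ^ 2) ≠ 0 := by
    have h2 : ContinuousAt (fun z : ℂ => f (z / (1 - z) ^ 2)) 0 :=
      ContinuousAt.comp (f := fun z : ℂ => z / (1 - z) ^ 2) hf.continuous.continuousAt hkc
    exact h2.eventually_ne (by simpa using h0)
  rw [Metric.eventually_nhds_iff] at h1
  obtain ⟨δ, hδ, h2⟩ := h1
  set r : ℝ := min δ 1 with hr
  have hr0 : 0 < r := by positivity
  have hne : ∀ z ∈ ball (0 : ℂ) r, f (z / (1 - z) ^ 2) ≠ 0 := by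
    intro z hz
    have hz' : dist z 0 < r := hz
    exact h2 (hz'.trans_le (min_le_left _ _))
  have hsub : ball (0 : ℂ) r ⊆ ball 0 1 := ball_subset_ball (min_le_right _ _)
  set k : ℂ → ℂ := fun z => z / (1 - z) ^ 2 with hk
  have hkd : DifferentiableOn ℂ k (ball 0 r) := koebe_diff.mono hsub
  have hl : TendstoLocallyUniformlyOn (fun (N : ℕ) (x : ℂ) => f 0 * ((Z N).map fun u => 1 - x / u).prod) f atTop Set.univ :=
    tendstoLocallyUniformlyOn_univ.2 hZ.lim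
  have h3 : TendstoLocallyUniformlyOn (fun (N : ℕ) (z : ℂ) => f 0 * ((Z N).map fun u => 1 - k z / u).prod)
      (fun z => f (k z)) atTop (ball 0 r) := hl.comp k (fun z _ => Set.mem_univ _) hkd.continuousOn
  have hd : ∀ N : ℕ, Differentiable ℂ (fun x => f 0 * ((Z N).map fun u => 1 - x / u).prod) := by
    intro N
    refine Differentiable.const_mul ?_ _
    generalize Z N = Y
    induction Y using Multiset.induction_on with
    | empty => simp
    | cons u Y ih =>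
      have : (fun x => ((u ::ₘ Y).map fun u => 1 - x / u).prod) = fun x => (1 - x / u) * (Y.map fun u => 1 - x / u).prod := by
        ext x
        rw [Multiset.map_cons, Multiset.prod_cons]
      rw [this]
      exact Differentiable.mul (by fun_prop) ih
  have hneP : ∀ N, ∀ z ∈ ball (0 : ℂ) r, f 0 * ((Z N).map fun u => 1 - k z / u).prod ≠ 0 := by
    intro N z hz h4
    rcases mul_eq_zero.1 h4 with h4 | h4
    · exact h0 h4
    · rw [Multiset.prod_eq_zero_iff, Multiset.mem_map] at h4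
      obtain ⟨u, hu, h5⟩ := h4
      have hu0 := (hZ.mem N u hu).2
      have h6 : k z / u = 1 := by linear_combination -h5
      rw [div_eq_one_iff_eq hu0] at h6
      exact hne z hz (by
        show f (k z) = 0
        rw [h6]
        exact mem_zero hf h0 hZ hu)
  have h4 := cf_tendsto isOpen_ball (mem_ball_self hr0) h3 (fun N => (hd N).comp_differentiableOn hkd) hne hneP n
  refine h4.congr fun N => ?_
  exact (prod_cf (Z N) (fun v hv => (hZ.mem N v hv).2) h0 n).1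

end

/-! ### zeta -/

theorem Fs_par {v : ℂ} (hv : Fs v = 0) : v + 1 / 4 ∈ Par := by
  unfold Fs at hv
  obtain ⟨q, hq⟩ : ∃ q : ℂ, q ^ 2 = v + 1 / 4 := ⟨_, sqrt_sq v⟩
  rw [← hq, b1.2.1] at hv
  have h1 := Zer.abs_re_le _ hv
  rw [← hq]
  show (q ^ 2).re + (q ^ 2).im ^ 2 ≤ 1 / 4
  have e1 : (q ^ 2).re = q.re ^ 2 - q.im ^ 2 := by
    rw [pow_two, Complex.mul_re]; ring
  have e2 : (q ^ 2).im = 2 * q.re * q.im := by
    rw [pow_two, Complex.mul_im]; ring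
  rw [e1, e2]
  have h2 : q.re ^ 2 ≤ 1 / 4 := by
    rw [abs_le] at h1
    nlinarith [h1.1, h1.2]
  nlinarith [sq_nonneg q.im]

theorem Fs_par' {v : ℂ} (hv : Fs v = 0) : v ∈ Par := by
  have h : (v + 1 / 4).re + (v + 1 / 4).im ^ 2 ≤ 1 / 4 := Fs_par hv
  show v.re + v.im ^ 2 ≤ 1 / 4
  simp at h
  linarith

theorem Fs_zero_ne : Fs 0 ≠ 0 := by
  rw [Fs_zero]
  norm_num

theorem exists_Zs : ∃ Z : ℕ → Multiset ℂ, Zeros Fs Z := by
  obtain ⟨K, hK⟩ := Fs_grow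
  exact exists_zeros Fs K Fs_diff Fs_zero_ne hK

theorem phi_cf (n : ℕ) : cf phi n = cf (fun z => Fs (z / (1 - z) ^ 2)) n := by
  have e1 : phi =ᶠ[𝓝 0] fun z => 1 / 8 * Fs (z / (1 - z) ^ 2) := by
    filter_upwards [isOpen_ball.mem_nhds (mem_ball_self (x := (0 : ℂ)) one_pos)] with z hz
    exact phi_Fs hz
  rw [cf_congr e1, cf_const_mul _ _ (by norm_num)]
  · exact (Fs_diff.comp_differentiableOn koebe_diff).analyticAt (isOpen_ball.mem_nhds (mem_ball_self one_pos))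
  · simpa using Fs_zero_ne

/-- the Li coefficients as complex numbers -/
noncomputable def lam : ℕ → ℂ
  | 0 => 0
  | n + 1 => cf phi n

theorem lam_re (n : ℕ) : (lam n).re = li n := by
  rcases n with _ | n
  · rw [li_zero]
    rfl
  · rw [li_cf]
    rfl

theorem cf_star' {f : ℂ → ℂ} (n : ℕ) : cf (fun z => (starRingEnd ℂ) (f ((starRingEnd ℂ) z))) n = (starRingEnd ℂ) (cf f n) := by
  have h2 : logDeriv (fun z => (starRingEnd ℂ) (f ((starRingEnd ℂ) z))) =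
      fun z => (starRingEnd ℂ) (logDeriv f ((starRingEnd ℂ) z)) := by
    ext z
    rw [logDeriv_apply, logDeriv_apply, map_div₀]
    congr 1
    exact congrFun (deriv_conj_conj (f := f)) z
  have h1 : ∀ (g : ℂ → ℂ) (n : ℕ), iteratedDeriv n (fun z => (starRingEnd ℂ) (g ((starRingEnd ℂ) z))) =
      fun z => (starRingEnd ℂ) (iteratedDeriv n g ((starRingEnd ℂ) z)) := by
    intro g n
    induction n with
    | zero => simp [iteratedDeriv_zero]
    | succ n ih =>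
      rw [iteratedDeriv_succ, ih, iteratedDeriv_succ]
      exact deriv_conj_conj (f := iteratedDeriv n g)
  unfold cf
  rw [h2, h1]
  beta_reduce
  rw [map_div₀, map_natCast, map_zero]

theorem lam_im (n : ℕ) : (lam n).im = 0 := by
  rcases n with _ | n
  · rfl
  · show (cf phi n).im = 0
    rw [phi_cf, ← Complex.conj_eq_iff_im, ← cf_star']
    congr 1
    ext z
    rw [← Fs_conj]
    congr 1
    simp

theorem lam_eq (n : ℕ) : lam n = ((li n : ℝ) : ℂ) :=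
  Complex.ext (by rw [lam_re, Complex.ofReal_re]) (by rw [lam_im, Complex.ofReal_im])

variable {Z : ℕ → Multiset ℂ} (hZ : Zeros Fs Z)

include hZ

theorem lam_lim (n : ℕ) : Tendsto (fun N => ((Z N).map fun v => 2 - zt v ^ n - ((zt v)⁻¹) ^ n).sum) atTop
    (𝓝 (lam n)) := by
  rcases n with _ | n
  · have : (fun N => ((Z N).map fun v => 2 - zt v ^ 0 - ((zt v)⁻¹) ^ 0).sum) = fun _ => (0 : ℂ) := by
      ext N
      simp only [pow_zero]
      norm_num
    rw [this]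
    exact tendsto_const_nhds
  · have := cf_lim Fs_diff Fs_zero_ne hZ n
    rw [← phi_cf] at this
    exact this

omit hZ in
/-- the zeros are away from `0` -/
theorem zeros_away : ∃ δ : ℝ, 0 < δ ∧ ∀ v, Fs v = 0 → δ * (2 + ‖v‖) ≤ ‖v‖ := by
  obtain ⟨c, hc, h⟩ := dist_zeros Fs_diff Fs_zero_ne
  refine ⟨c, hc, fun v hv => ?_⟩
  have := h v hv
  rwa [zero_sub, norm_neg] at this

theorem summable_inv : Summable fun v : ℂ => (mu Fs v : ℝ) * ‖1 / v‖ := by
  obtain ⟨δ, hδ, h⟩ := zeros_away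
  refine Summable.of_nonneg_of_le (fun v => by positivity) (fun v => ?_)
    ((summable_mu Fs_diff Fs_zero_ne hZ fun u hu => Fs_par' hu).mul_left (1 / δ))
  by_cases h1 : mu Fs v = 0
  · rw [h1]; simp
  · have h2 := h v ((mu_pos Fs_diff Fs_zero_ne v).1 h1)
    have h3 : ‖1 / v‖ ≤ 1 / δ * (1 / (2 + ‖v‖)) := by
      rw [norm_div, norm_one, one_div_mul_one_div]
      exact one_div_le_one_div_of_le (by positivity) h2
    calc (mu Fs v : ℝ) * ‖1 / v‖ ≤ (mu Fs v : ℝ) * (1 / δ * (1 / (2 + ‖v‖))) := by gcongr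
      _ = _ := by ring

omit hZ in
/-- the points `ζ` are bounded -/
theorem zt_bound : ∃ R : ℝ, 1 ≤ R ∧ ∀ v, Fs v = 0 → ‖zt v‖ ≤ R ∧ ‖(zt v)⁻¹‖ ≤ R := by
  obtain ⟨δ, hδ, h⟩ := zeros_away
  refine ⟨3 + 1 / δ, by have : 0 < 1 / δ := by positivity
                        linarith, fun v hv => ?_⟩
  have hv0 : v ≠ 0 := by
    rintro rfl
    exact Fs_zero_ne hv
  have h1 := h v hv
  have hs := zt_sum hv0
  have h2 : ‖1 / v‖ ≤ 1 / δ := by
    rw [norm_div, norm_one]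
    refine one_div_le_one_div_of_le hδ ?_
    nlinarith [norm_nonneg v]
  have h3 : ‖zt v + (zt v)⁻¹‖ ≤ 2 + 1 / δ := by
    rw [hs]
    calc ‖2 + 1 / v‖ ≤ ‖(2 : ℂ)‖ + ‖1 / v‖ := norm_add_le _ _
      _ ≤ 2 + 1 / δ := by
        rw [Complex.norm_ofNat]
        linarith
  have hz := zt_ne hv0
  have h5 : ‖zt v‖ * ‖(zt v)⁻¹‖ = 1 := by rw [← norm_mul, mul_inv_cancel₀ hz, norm_one]
  have h6 : ‖zt v‖ ≤ ‖zt v + (zt v)⁻¹‖ + ‖(zt v)⁻¹‖ := by
    calc ‖zt v‖ = ‖(zt v + (zt v)⁻¹) - (zt v)⁻¹‖ := by ring_nf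
      _ ≤ _ := norm_sub_le _ _
  have h7 : ‖(zt v)⁻¹‖ ≤ ‖zt v + (zt v)⁻¹‖ + ‖zt v‖ := by
    calc ‖(zt v)⁻¹‖ = ‖(zt v + (zt v)⁻¹) - zt v‖ := by ring_nf
      _ ≤ _ := norm_sub_le _ _
  have h8 := norm_nonneg (zt v)
  have h9 := norm_nonneg (zt v)⁻¹
  have hd : 0 < 1 / δ := by positivity
  rcases le_total ‖zt v‖ 1 with h4 | h4
  · exact ⟨by linarith, by linarith⟩
  · have h10 : ‖(zt v)⁻¹‖ ≤ 1 := by
      rw [norm_inv]
      exact inv_le_one_of_one_le₀ h4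
    exact ⟨by linarith, by linarith⟩

theorem summable_pow (n : ℕ) : Summable fun v : ℂ => (mu Fs v : ℂ) * (-(1 / v) * (zt v ^ n + ((zt v)⁻¹) ^ n)) := by
  obtain ⟨R, hR, h⟩ := zt_bound
  refine Summable.of_norm_bounded ((summable_inv hZ).mul_right (2 * R ^ n)) fun v => ?_
  by_cases h1 : mu Fs v = 0
  · rw [h1]; simp
  · obtain ⟨k1, k2⟩ := h v ((mu_pos Fs_diff Fs_zero_ne v).1 h1)
    rw [norm_mul, norm_mul, norm_neg, Complex.norm_natCast, ← mul_assoc]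
    have h2 : ‖zt v ^ n + ((zt v)⁻¹) ^ n‖ ≤ 2 * R ^ n := by
      refine (norm_add_le _ _).trans ?_
      rw [norm_pow, norm_pow]
      have e1 : ‖zt v‖ ^ n ≤ R ^ n := by gcongr
      have e2 : ‖(zt v)⁻¹‖ ^ n ≤ R ^ n := by gcongr
      linarith
    gcongr

/-- **The second differences.** -/
theorem hasSum_diff (n : ℕ) : HasSum (fun v : ℂ => (mu Fs v : ℂ) * (-(1 / v) * (zt v ^ (n + 1) + ((zt v)⁻¹) ^ (n + 1))))
    (lam (n + 2) - 2 * lam (n + 1) + lam n) := by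
  refine hasSum_of_Z hZ (summable_pow hZ _) ?_
  have h1 := ((lam_lim hZ (n + 2)).sub ((lam_lim hZ (n + 1)).const_mul 2)).add (lam_lim hZ n)
  refine h1.congr fun N => ?_
  rw [← Multiset.sum_map_mul_left, ← Multiset.sum_map_sub, ← Multiset.sum_map_add]
  congr 1
  refine Multiset.map_congr rfl fun v hv => ?_
  have hv0 := (hZ.mem N v hv).2
  have hs := zt_sum hv0
  have hz := zt_ne hv0
  have h2 : zt v * (zt v)⁻¹ = 1 := mul_inv_cancel₀ hz
  set a := zt v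
  set b := (zt v)⁻¹
  have e : -(1 / v) = 2 - a - b := by linear_combination hs
  rw [e]
  have e1 : a ^ (n + 2) = a ^ n * a ^ 2 := by ring
  have e2 : b ^ (n + 2) = b ^ n * b ^ 2 := by ring
  have e3 : a ^ (n + 1) = a ^ n * a := by ring
  have e4 : b ^ (n + 1) = b ^ n * b := by ring
  rw [e1, e2, e3, e4]
  linear_combination (a ^ n + b ^ n) * h2

theorem hasSum_zero : HasSum (fun v : ℂ => (mu Fs v : ℂ) * (-(1 / v) * 2)) (2 * lam 1) := by
  have hs := summable_pow hZ 0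
  simp only [pow_zero, one_add_one_eq_two] at hs
  refine hasSum_of_Z hZ hs ?_
  have h1 := (lam_lim hZ 1).const_mul 2
  refine h1.congr fun N => ?_
  rw [← Multiset.sum_map_mul_left]
  congr 1
  refine Multiset.map_congr rfl fun v hv => ?_
  have hv0 := (hZ.mem N v hv).2
  have hs := zt_sum hv0
  rw [pow_one, pow_one]
  linear_combination (-2) * hs

/-- the constant `D` -/
theorem hasSum_D : HasSum (fun v : ℂ => (mu Fs v : ℂ) * (2 * (1 / v) ^ 2)) (8 * lam 1 - 2 * lam 2) := by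
  have h1 := ((hasSum_zero hZ).sub (hasSum_diff hZ 0)).mul_left 2
  have e : 2 * (2 * lam 1 - (lam (0 + 2) - 2 * lam (0 + 1) + lam 0)) = 8 * lam 1 - 2 * lam 2 := by
    have : lam 0 = 0 := rfl
    rw [this]
    ring_nf
  rw [e] at h1
  have heq : (fun v : ℂ => (mu Fs v : ℂ) * (2 * (1 / v) ^ 2)) = fun v => 2 * ((mu Fs v : ℂ) * (-(1 / v) * 2) -
      (mu Fs v : ℂ) * (-(1 / v) * (zt v ^ (0 + 1) + (zt v)⁻¹ ^ (0 + 1)))) := by
   funext v
   by_cases hm : mu Fs v = 0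
   · rw [hm]; simp
   · have hv0 : v ≠ 0 := by
      rintro rfl
      exact Fs_zero_ne ((mu_pos Fs_diff Fs_zero_ne 0).1 hm)
     have hs := zt_sum hv0
     rw [zero_add, pow_one, pow_one, hs]
     ring
  rw [heq]
  exact h1

end Run7.h278.WL
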