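import Pool.Agent.Run7.h278.WL.Rh

set_option autoImplicit false

/-!
# Growth of the mean values if RH fails
-/

namespace Run7.h278.WL

open Complex Filter Topology Finset Metric Pool.Agent.H24R2.JP Run7.h278.LI

/-- the larger root -/
noncomputable def th (v : ℂ) : ℂ := if 1 ≤ ‖zt v‖ then zt v else (zt v)⁻¹

theorem th_cases (v : ℂ) (n : ℕ) : zt v ^ n + ((zt v)⁻¹) ^ n = th v ^ n + ((th v)⁻¹) ^ n := by
  unfold th
  split_ifs
  · rfl
  · rw [inv_inv, add_comm]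

theorem th_ne {v : ℂ} (hv : v ≠ 0) : th v ≠ 0 := by
  unfold th
  split_ifs
  · exact zt_ne hv
  · exact inv_ne_zero (zt_ne hv)

theorem th_sum {v : ℂ} (hv : v ≠ 0) : th v + (th v)⁻¹ = 2 + 1 / v := by
  have h := th_cases v 1
  rw [pow_one, pow_one, pow_one, pow_one] at h
  rw [← h]
  exact zt_sum hv

theorem th_ge {v : ℂ} (hv : v ≠ 0) : 1 ≤ ‖th v‖ := by
  unfold th
  split_ifs with h
  · exact h
  · rw [norm_inv]
    push Not at h
    exact (one_le_inv₀ (norm_pos_iff.2 (zt_ne hv))).2 h.le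

theorem th_inj {v v' : ℂ} (hv : v ≠ 0) (hv' : v' ≠ 0) (h : th v = th v') : v = v' := by
  have h1 := th_sum hv
  have h2 := th_sum hv'
  rw [h, h2] at h1
  have h3 : 1 / v' = 1 / v := by linear_combination h1
  rw [one_div, one_div, inv_inj] at h3
  exact h3.symm

/-- a bound for `v` -/
theorem th_far {v : ℂ} (hv : v ≠ 0) {R : ℝ} (hR : 1 < R) (h : R ≤ ‖th v‖) : ‖v‖ ≤ R / (R - 1) ^ 2 := by
  have hz := th_ne hv
  have hs := th_sum hv
  set z := th v with hzd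
  have e1 : (z - 1) ^ 2 = z / v := by
    have h2 : z * z⁻¹ = 1 := mul_inv_cancel₀ hz
    linear_combination z * hs - h2
  have e2 : v * (z - 1) ^ 2 = z := by
    rw [e1]
    field_simp
  have e3 : ‖v‖ * ‖z - 1‖ ^ 2 = ‖z‖ := by
    rw [← norm_pow, ← norm_mul, e2]
  have h3 : ‖z‖ - 1 ≤ ‖z - 1‖ := by
    have := norm_sub_norm_le z 1
    rwa [norm_one] at this
  have h4 : ‖v‖ * (‖z‖ - 1) ^ 2 ≤ ‖z‖ := by
    have : 0 ≤ ‖z‖ - 1 := by linarith
    calc ‖v‖ * (‖z‖ - 1) ^ 2 ≤ ‖v‖ * ‖z - 1‖ ^ 2 := by gcongr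
      _ = ‖z‖ := e3
  have h5 : 0 < R - 1 := by linarith
  rw [le_div_iff₀ (by positivity)]
  -- `x / (x - 1)^2` is decreasing
  have hx : R ≤ ‖z‖ := h
  have h6 : ‖z‖ * (R - 1) ^ 2 ≤ R * (‖z‖ - 1) ^ 2 := by
    have h8 : 0 ≤ (‖z‖ - R) * (R * ‖z‖ - 1) := mul_nonneg (by linarith) (by nlinarith)
    nlinarith
  have h7 : ‖v‖ * (R - 1) ^ 2 * ‖z‖ ≤ R * ‖z‖ := by
    calc ‖v‖ * (R - 1) ^ 2 * ‖z‖ = ‖v‖ * (‖z‖ * (R - 1) ^ 2) := by ring
      _ ≤ ‖v‖ * (R * (‖z‖ - 1) ^ 2) := by gcongr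
      _ = R * (‖v‖ * (‖z‖ - 1) ^ 2) := by ring
      _ ≤ R * ‖z‖ := by gcongr
  exact le_of_mul_le_mul_right h7 (by linarith)

theorem zeros_fin (B : ℝ) : {v : ℂ | Fs v = 0 ∧ ‖v‖ ≤ B}.Finite := by
  obtain ⟨Z, hZ⟩ := exists_Zs
  obtain ⟨N, hN⟩ := exists_nat_ge B
  refine (Z N).toFinset.finite_toSet.subset fun v hv => ?_
  obtain ⟨h1, h2⟩ := hv
  rw [Finset.mem_coe, Multiset.mem_toFinset, ← Multiset.count_ne_zero, hZ.cnt N v (by linarith)]
  exact (mu_pos Fs_diff Fs_zero_ne v).2 h1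

/-- the dominating zeros -/
theorem dominate {v0 : ℂ} (h0 : Fs v0 = 0) (h1 : 1 < ‖th v0‖) : ∃ (R R2 : ℝ) (T : Finset ZI), 1 < R ∧ 1 ≤ R2 ∧ R2 < R ∧
    T.Nonempty ∧ (∀ v ∈ T, ‖th (v : ℂ)‖ = R) ∧ ∀ v : ZI, v ∉ T → ‖th (v : ℂ)‖ ≤ R2 := by
  classical
  set R0 : ℝ := (1 + ‖th v0‖) / 2 with hR0
  have hR1 : 1 < R0 := by rw [hR0]; linarith
  have hfin : {v : ZI | R0 ≤ ‖th (v : ℂ)‖}.Finite := by
    have h2 := zeros_fin (R0 / (R0 - 1) ^ 2)
    refine Set.Finite.of_finite_image (f := ((↑) : ZI → ℂ)) (h2.subset ?_) Subtype.val_injective.injOn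
    rintro _ ⟨v, hv, rfl⟩
    exact ⟨v.2, th_far (zero_ne v.2) hR1 hv⟩
  set S : Finset ZI := hfin.toFinset with hS
  have hSmem : ∀ v : ZI, v ∈ S ↔ R0 ≤ ‖th (v : ℂ)‖ := fun v => by rw [hS, Set.Finite.mem_toFinset]; rfl
  have hSne : S.Nonempty := ⟨⟨v0, h0⟩, (hSmem _).2 (by rw [hR0]; linarith)⟩
  obtain ⟨vm, hvm, hmax⟩ := S.exists_max_image (fun v => ‖th (v : ℂ)‖) hSne
  set R : ℝ := ‖th (vm : ℂ)‖ with hR
  have hRR : R0 < R := by
    have : ‖th v0‖ ≤ R := hmax ⟨v0, h0⟩ ((hSmem _).2 (by rw [hR0]; linarith))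
    rw [hR0]
    linarith
  set S2 : Finset ZI := S.filter fun v => ‖th (v : ℂ)‖ < R with hS2
  obtain ⟨R2, h2, h3, h4⟩ : ∃ R2 : ℝ, R0 ≤ R2 ∧ R2 < R ∧ ∀ v ∈ S2, ‖th (v : ℂ)‖ ≤ R2 := by
    rcases S2.eq_empty_or_nonempty with h5 | h5
    · exact ⟨R0, le_rfl, hRR, by rw [h5]; simp⟩
    · obtain ⟨v2, hv2, hm2⟩ := S2.exists_max_image (fun v => ‖th (v : ℂ)‖) h5
      rw [hS2, mem_filter, hSmem] at hv2
      exact ⟨‖th (v2 : ℂ)‖, hv2.1, hv2.2, hm2⟩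
  refine ⟨R, R2, S.filter fun v => ‖th (v : ℂ)‖ = R, by linarith, by linarith, h3, ⟨vm, mem_filter.2 ⟨hvm, rfl⟩⟩,
    fun v hv => (mem_filter.1 hv).2, fun v hv => ?_⟩
  by_cases h5 : v ∈ S
  · have h6 : ‖th (v : ℂ)‖ ≠ R := fun h => hv (mem_filter.2 ⟨h5, h⟩)
    exact h4 v (mem_filter.2 ⟨h5, lt_of_le_of_ne (hmax v h5) h6⟩)
  · rw [hSmem] at h5
    push Not at h5
    linarith

theorem wt_ne (v : ZI) : wt v ≠ 0 := by
  unfold wt
  have h := (mu_pos Fs_diff Fs_zero_ne v).2 v.2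
  have h1 : (mu Fs (v : ℂ) : ℂ) ≠ 0 := by exact_mod_cast h
  exact mul_ne_zero h1 (neg_ne_zero.2 (one_div_ne_zero (zero_ne v.2)))

/-- the main part -/
noncomputable def HH (T : Finset ZI) (R : ℝ) (n : ℕ) : ℂ := ∑ v ∈ T, wt v * (th (v : ℂ) / R) ^ n

theorem approx {R R2 : ℝ} {T : Finset ZI} (hR : 1 < R) (hR2 : 1 ≤ R2)
    (hT2 : ∀ v : ZI, v ∉ T → ‖th (v : ℂ)‖ ≤ R2) : ∃ C : ℝ, 0 ≤ C ∧ ∀ n : ℕ,
    ‖((dd n : ℝ) : ℂ) - R ^ (n + 1) * HH T R (n + 1)‖ ≤ C * R2 ^ (n + 1) := by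
  classical
  obtain ⟨Z, hZ⟩ := exists_Zs
  have hs := wt_summable hZ
  have hnn : 0 ≤ ∑' v : ZI, ‖wt v‖ := tsum_nonneg fun v => norm_nonneg _
  refine ⟨2 * ∑' v : ZI, ‖wt v‖, by linarith, fun n => ?_⟩
  have hR0 : (R : ℂ) ≠ 0 := by
    have : R ≠ 0 := by linarith
    exact_mod_cast this
  have h1 := dd_hasSum hZ n
  have h2 : HasSum (fun v : ZI => if v ∈ T then wt v * th (v : ℂ) ^ (n + 1) else 0) ((R : ℂ) ^ (n + 1) * HH T R (n + 1)) := by
    have h3 : (R : ℂ) ^ (n + 1) * HH T R (n + 1) = ∑ v ∈ T, (if v ∈ T then wt v * th (v : ℂ) ^ (n + 1) else 0) := by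
      unfold HH
      rw [mul_sum]
      refine sum_congr rfl fun v hv => ?_
      rw [if_pos hv, div_pow]
      field_simp
    rw [h3]
    exact hasSum_sum_of_ne_finset_zero fun v hv => if_neg hv
  have h4 := h1.sub h2
  rw [← h4.tsum_eq]
  have hR2n : 1 ≤ R2 ^ (n + 1) := one_le_pow₀ hR2
  have hb : ∀ v : ZI, ‖wt v * ee n v - (if v ∈ T then wt v * th (v : ℂ) ^ (n + 1) else 0)‖ ≤ ‖wt v‖ * (2 * R2 ^ (n + 1)) := by
    intro v
    have hv0 := zero_ne v.2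
    have h5 : ‖((th (v : ℂ))⁻¹) ^ (n + 1)‖ ≤ 1 := by
      rw [norm_pow, norm_inv]
      exact pow_le_one₀ (by positivity) (inv_le_one_of_one_le₀ (th_ge hv0))
    unfold ee
    rw [th_cases]
    split_ifs with hvT
    · rw [mul_add, add_sub_cancel_left, norm_mul]
      have : ‖((th (v : ℂ))⁻¹) ^ (n + 1)‖ ≤ 2 * R2 ^ (n + 1) := by linarith
      gcongr
    · rw [sub_zero, norm_mul]
      have h6 : ‖th (v : ℂ) ^ (n + 1)‖ ≤ R2 ^ (n + 1) := by
        rw [norm_pow]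
        have := hT2 v hvT
        gcongr
      have : ‖th (v : ℂ) ^ (n + 1) + ((th (v : ℂ))⁻¹) ^ (n + 1)‖ ≤ 2 * R2 ^ (n + 1) := by
        refine (norm_add_le _ _).trans ?_
        linarith
      gcongr
  refine (tsum_of_norm_bounded (hs.mul_right (2 * R2 ^ (n + 1))).hasSum hb).trans ?_
  rw [tsum_mul_right]
  apply le_of_eq
  ring

theorem HH_bound {R : ℝ} {T : Finset ZI} (hR : 1 < R) (hT : ∀ v ∈ T, ‖th (v : ℂ)‖ = R) (n : ℕ) :
    ‖HH T R n‖ ≤ ∑ v ∈ T, ‖wt v‖ := by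
  unfold HH
  refine (norm_sum_le _ _).trans (sum_le_sum fun v hv => ?_)
  rw [norm_mul, norm_pow, norm_div, hT v hv, Complex.norm_real, Real.norm_eq_abs, abs_of_pos (by linarith),
    div_self (by linarith), one_pow, mul_one]

theorem HH_mean {R : ℝ} {T : Finset ZI} (hR : 1 < R) (hT : ∀ v ∈ T, ‖th (v : ℂ)‖ = R) {a : ℕ → ℕ} (ha : Erg a) :
    Tendsto (fun N : ℕ => (∑ n ∈ range N, ‖HH T R (a n + 1)‖ ^ 2) / (N : ℝ)) atTop (𝓝 (∑ v ∈ T, ‖wt v‖ ^ 2)) := by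
  classical
  have hR0 : (R : ℂ) ≠ 0 := by
    have : R ≠ 0 := by linarith
    exact_mod_cast this
  set y : ZI → ℂ := fun v => th (v : ℂ) / R with hy
  have hyn : ∀ v ∈ T, ‖y v‖ = 1 := by
    intro v hv
    rw [hy]
    beta_reduce
    rw [norm_div, hT v hv, Complex.norm_real, Real.norm_eq_abs, abs_of_pos (by linarith), div_self (by linarith)]
  have e1 : ∀ n : ℕ, ((‖HH T R n‖ ^ 2 : ℝ) : ℂ) =
      ∑ v ∈ T, ∑ v' ∈ T, (wt v * (starRingEnd ℂ) (wt v')) * (y v * (starRingEnd ℂ) (y v')) ^ n := by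
    intro n
    rw [← Complex.normSq_eq_norm_sq, ← Complex.mul_conj]
    unfold HH
    rw [map_sum, sum_mul_sum]
    refine sum_congr rfl fun v _ => sum_congr rfl fun v' _ => ?_
    rw [map_mul, map_pow, mul_pow]
    ring
  have h1 : ∀ v ∈ T, ∀ v' ∈ T, Tendsto (fun N : ℕ => (∑ n ∈ range N,
      (wt v * (starRingEnd ℂ) (wt v')) * (y v * (starRingEnd ℂ) (y v')) ^ (a n + 1)) / (N : ℂ)) atTop
      (𝓝 (if v = v' then ((‖wt v‖ ^ 2 : ℝ) : ℂ) else 0)) := by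
    intro v hv v' hv'
    have hn : ‖y v * (starRingEnd ℂ) (y v')‖ = 1 := by
      rw [norm_mul, Complex.norm_conj, hyn v hv, hyn v' hv', one_mul]
    have hc : (starRingEnd ℂ) (y v') = (y v')⁻¹ := by
      rw [Complex.inv_def, Complex.normSq_eq_norm_sq, hyn v' hv']
      simp
    have hy0 : y v' ≠ 0 := fun h => by
      have := hyn v' hv'
      rw [h, norm_zero] at this
      exact zero_ne_one this
    split_ifs with hvv
    · subst hvv
      rw [hc, mul_inv_cancel₀ hy0]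
      have e2 : wt v * (starRingEnd ℂ) (wt v) = ((‖wt v‖ ^ 2 : ℝ) : ℂ) := by
        rw [Complex.mul_conj, Complex.normSq_eq_norm_sq]
      rw [e2]
      simp only [one_pow, mul_one]
      exact mean_one _
    · refine ha.zpow hn ?_ _ 1
      intro h
      apply hvv
      rw [hc, mul_inv_eq_one₀ hy0] at h
      rw [hy] at h
      beta_reduce at h
      have h2 : th (v : ℂ) = th (v' : ℂ) := by
        field_simp at h
        exact h
      exact Subtype.ext (th_inj (zero_ne v.2) (zero_ne v'.2) h2)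
  have h2 := tendsto_finsetSum T fun v hv => tendsto_finsetSum T fun v' hv' => h1 v hv v' hv'
  have e3 : (∑ v ∈ T, ∑ v' ∈ T, (if v = v' then ((‖wt v‖ ^ 2 : ℝ) : ℂ) else 0)) = ((∑ v ∈ T, ‖wt v‖ ^ 2 : ℝ) : ℂ) := by
    rw [Complex.ofReal_sum]
    refine sum_congr rfl fun v hv => ?_
    rw [Finset.sum_ite_eq T v, if_pos hv]
  rw [e3] at h2
  have h3 := (Complex.continuous_re.tendsto _).comp h2
  rw [Complex.ofReal_re] at h3
  refine h3.congr fun N => ?_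
  simp only [Function.comp_apply]
  have e4 : (∑ v ∈ T, ∑ v' ∈ T, (∑ n ∈ range N,
      (wt v * (starRingEnd ℂ) (wt v')) * (y v * (starRingEnd ℂ) (y v')) ^ (a n + 1)) / (N : ℂ)) =
      (((∑ n ∈ range N, ‖HH T R (a n + 1)‖ ^ 2) / (N : ℝ) : ℝ) : ℂ) := by
    rw [Complex.ofReal_div, Complex.ofReal_sum, Complex.ofReal_natCast]
    simp only [← sum_div]
    congr 1
    rw [sum_congr rfl fun v _ => sum_comm, sum_comm]
    exact sum_congr rfl fun n _ => (e1 (a n + 1)).symm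
  rw [e4, Complex.ofReal_re]

/-- **Growth of the mean values.** -/
theorem grow {v0 : ℂ} (h0 : Fs v0 = 0) (h1 : 1 < ‖th v0‖) {a : ℕ → ℕ} (ha : Erg a) :
    Tendsto (fun N : ℕ => (∑ n ∈ range N, dd (a n) ^ 2) / (N : ℝ)) atTop atTop := by
  classical
  obtain ⟨R, R2, T, hR, hR2, hRR, hTne, hT, hT2⟩ := dominate h0 h1
  obtain ⟨C, hC, hap⟩ := approx hR hR2 hT2
  set W : ℝ := ∑ v ∈ T, ‖wt v‖ with hW
  set κ : ℝ := ∑ v ∈ T, ‖wt v‖ ^ 2 with hκ
  have hκ0 : 0 < κ := by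
    refine sum_pos (fun v _ => ?_) hTne
    have := norm_pos_iff.2 (wt_ne v)
    positivity
  set q : ℝ := R2 / R with hq
  have hR0 : 0 < R := by linarith
  have hq0 : 0 ≤ q := by positivity
  have hq1 : q < 1 := by rw [hq, div_lt_one hR0]; exact hRR
  have hmean := HH_mean hR hT ha
  -- the pointwise inequality
  have key : ∀ A n : ℕ, R ^ (2 * A) * (‖HH T R (a n + 1)‖ ^ 2 / 2 - (C * q ^ A) ^ 2) -
      R ^ (2 * A) * (W ^ 2 / 2) * (if a n < A then 1 else 0) ≤ dd (a n) ^ 2 := by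
    intro A n
    set h : ℝ := ‖HH T R (a n + 1)‖ with hh
    have hhW : h ≤ W := HH_bound hR hT _
    have hh0 : 0 ≤ h := norm_nonneg _
    have hRA : 0 < R ^ (2 * A) := by positivity
    split_ifs with haA
    · have h3 : h ^ 2 ≤ W ^ 2 := by gcongr
      have h4 : R ^ (2 * A) * (h ^ 2 / 2 - (C * q ^ A) ^ 2) - R ^ (2 * A) * (W ^ 2 / 2) * 1 =
          R ^ (2 * A) * ((h ^ 2 - W ^ 2) / 2 - (C * q ^ A) ^ 2) := by ring
      rw [h4]
      have h5 : (h ^ 2 - W ^ 2) / 2 - (C * q ^ A) ^ 2 ≤ 0 := by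
        have := sq_nonneg (C * q ^ A)
        linarith
      have h6 : R ^ (2 * A) * ((h ^ 2 - W ^ 2) / 2 - (C * q ^ A) ^ 2) ≤ 0 :=
        mul_nonpos_of_nonneg_of_nonpos hRA.le h5
      have := sq_nonneg (dd (a n))
      linarith
    · push Not at haA
      set m : ℕ := a n + 1 with hm
      have h3 := hap (a n)
      rw [← hm] at h3
      have h4 : ‖(R : ℂ) ^ m * HH T R m‖ ≤ |dd (a n)| + C * R2 ^ m := by
        calc ‖(R : ℂ) ^ m * HH T R m‖ = ‖((dd (a n) : ℝ) : ℂ) - (((dd (a n) : ℝ) : ℂ) - (R : ℂ) ^ m * HH T R m)‖ := by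
              congr 1; ring
          _ ≤ ‖((dd (a n) : ℝ) : ℂ)‖ + ‖((dd (a n) : ℝ) : ℂ) - (R : ℂ) ^ m * HH T R m‖ := norm_sub_le _ _
          _ ≤ |dd (a n)| + C * R2 ^ m := by
              rw [Complex.norm_real, Real.norm_eq_abs]
              linarith
      rw [norm_mul, norm_pow, Complex.norm_real, Real.norm_eq_abs, abs_of_pos hR0, ← hh] at h4
      have h5 : (R ^ m * h) ^ 2 ≤ 2 * dd (a n) ^ 2 + 2 * (C * R2 ^ m) ^ 2 := by
        have h6 : (R ^ m * h) ^ 2 ≤ (|dd (a n)| + C * R2 ^ m) ^ 2 := by gcongr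
        have h7 : |dd (a n)| ^ 2 = dd (a n) ^ 2 := sq_abs _
        nlinarith [sq_nonneg (|dd (a n)| - C * R2 ^ m)]
      have h6 : R2 ^ m = R ^ m * q ^ m := by
        rw [hq, ← mul_pow]
        congr 1
        field_simp
      have h7 : R ^ (2 * m) * (h ^ 2 / 2 - (C * q ^ m) ^ 2) ≤ dd (a n) ^ 2 := by
        rw [h6] at h5
        have e8 : R ^ (2 * m) = (R ^ m) ^ 2 := by rw [← pow_mul, mul_comm]
        rw [e8]
        nlinarith
      have hmA : A ≤ m := by omega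
      have h8 : q ^ m ≤ q ^ A := pow_le_pow_of_le_one hq0 hq1.le hmA
      have h9 : (C * q ^ m) ^ 2 ≤ (C * q ^ A) ^ 2 := by gcongr
      have h10 : R ^ (2 * A) ≤ R ^ (2 * m) := pow_le_pow_right₀ hR.le (by omega)
      rw [mul_zero, sub_zero]
      rcases le_total (h ^ 2 / 2 - (C * q ^ A) ^ 2) 0 with h11 | h11
      · have h12 : R ^ (2 * A) * (h ^ 2 / 2 - (C * q ^ A) ^ 2) ≤ 0 := mul_nonpos_of_nonneg_of_nonpos hRA.le h11
        have := sq_nonneg (dd (a n))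
        linarith
      · calc R ^ (2 * A) * (h ^ 2 / 2 - (C * q ^ A) ^ 2) ≤ R ^ (2 * m) * (h ^ 2 / 2 - (C * q ^ A) ^ 2) := by gcongr
          _ ≤ R ^ (2 * m) * (h ^ 2 / 2 - (C * q ^ m) ^ 2) := by
              have : 0 < R ^ (2 * m) := by positivity
              gcongr
          _ ≤ _ := h7
  -- the mean values of the left hand side
  have key2 : ∀ A : ℕ, Tendsto (fun N : ℕ => R ^ (2 * A) * ((∑ n ∈ range N, ‖HH T R (a n + 1)‖ ^ 2) / (N : ℝ) / 2 - (C * q ^ A) ^ 2) -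
      R ^ (2 * A) * (W ^ 2 / 2) * ((∑ n ∈ range N, if a n < A then (1 : ℝ) else 0) / (N : ℝ))) atTop
      (𝓝 (R ^ (2 * A) * (κ / 2 - (C * q ^ A) ^ 2))) := by
    intro A
    have h2 := ((hmean.div_const 2).sub_const ((C * q ^ A) ^ 2)).const_mul (R ^ (2 * A))
    have h3 := (ha.freq_lt A).const_mul (R ^ (2 * A) * (W ^ 2 / 2))
    have h4 := h2.sub h3
    rw [mul_zero, sub_zero] at h4
    exact h4
  have key3 : ∀ A N : ℕ, 1 ≤ N → R ^ (2 * A) * ((∑ n ∈ range N, ‖HH T R (a n + 1)‖ ^ 2) / (N : ℝ) / 2 - (C * q ^ A) ^ 2) -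
      R ^ (2 * A) * (W ^ 2 / 2) * ((∑ n ∈ range N, if a n < A then (1 : ℝ) else 0) / (N : ℝ)) ≤
      (∑ n ∈ range N, dd (a n) ^ 2) / (N : ℝ) := by
    intro A N hN
    have hN0 : (0 : ℝ) < N := by exact_mod_cast hN
    rw [le_div_iff₀ hN0]
    have h2 := sum_le_sum fun n (_ : n ∈ range N) => key A n
    refine le_trans (le_of_eq ?_) h2
    rw [sum_sub_distrib, ← mul_sum, ← mul_sum, sum_sub_distrib, ← sum_div, sum_const, card_range, nsmul_eq_mul]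
    field_simp
  -- the choice of `A`
  have key4 : Tendsto (fun A : ℕ => R ^ (2 * A) * (κ / 2 - (C * q ^ A) ^ 2)) atTop atTop := by
    have h2 : Tendsto (fun A : ℕ => R ^ (2 * A)) atTop atTop := by
      have : (fun A : ℕ => R ^ (2 * A)) = fun A => (R ^ 2) ^ A := by
        ext A
        rw [pow_mul]
      rw [this]
      exact tendsto_pow_atTop_atTop_of_one_lt (by nlinarith)
    have h3 : Tendsto (fun A : ℕ => κ / 2 - (C * q ^ A) ^ 2) atTop (𝓝 (κ / 2)) := by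
      have h4 := ((tendsto_pow_atTop_nhds_zero_of_lt_one hq0 hq1).const_mul C).pow 2
      have h5 := h4.const_sub (κ / 2)
      simpa using h5
    exact h2.atTop_mul_pos (by positivity) h3
  rw [Filter.tendsto_atTop]
  intro b
  obtain ⟨A, hA⟩ := (key4.eventually_gt_atTop b).exists
  filter_upwards [(key2 A).eventually (lt_mem_nhds hA), eventually_ge_atTop 1] with N h2 h3
  exact (h2.trans_le (key3 A N h3)).le

end Run7.h278.WL
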