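import Pool.Agent.Run7.h278.WL.Had
import Pool.Agent.Run7.h278.LI.Cf

set_option autoImplicit false

/-!
# Partial fractions: sums over all zeros
-/

namespace Run7.h278.WL

open Complex Filter Topology Metric Pool.Agent.H24R2.JP

variable {f : ℂ → ℂ} {Z : ℕ → Multiset ℂ}

theorem sum_Z (hZ : Zeros f Z) (g : ℂ → ℂ) (N : ℕ) : ((Z N).map g).sum = ∑ u ∈ (Z N).toFinset, (mu f u : ℂ) * g u := by
  classical
  rw [Finset.sum_multiset_map_count]
  refine Finset.sum_congr rfl fun u hu => ?_
  rw [Multiset.mem_toFinset] at hu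
  rw [hZ.cnt N u (hZ.mem N u hu).1, nsmul_eq_mul]

theorem sum_Zr (hZ : Zeros f Z) (g : ℂ → ℝ) (N : ℕ) :
    ((Z N).map g).sum = ∑ u ∈ (Z N).toFinset, (mu f u : ℝ) * g u := by
  classical
  rw [Finset.sum_multiset_map_count]
  refine Finset.sum_congr rfl fun u hu => ?_
  rw [Multiset.mem_toFinset] at hu
  rw [hZ.cnt N u (hZ.mem N u hu).1, nsmul_eq_mul]

/-- a finite set of zeros is contained in `Z N` -/
theorem exists_N (hZ : Zeros f Z) (S : Finset ℂ) : ∃ N0 : ℕ, ∀ N, N0 ≤ N → ∀ u ∈ S, mu f u ≠ 0 → u ∈ (Z N).toFinset := by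
  obtain ⟨B, hB⟩ : ∃ B : ℝ, ∀ u ∈ S, ‖u‖ ≤ B := by
    obtain ⟨B, hB⟩ := (S.image fun u => ‖u‖).exists_le
    exact ⟨B, fun u hu => hB _ (Finset.mem_image_of_mem _ hu)⟩
  obtain ⟨N0, hN0⟩ := exists_nat_ge B
  refine ⟨N0, fun N hN u hu hm => ?_⟩
  have h1 : ‖u‖ ≤ (N : ℝ) + 1 := by
    have : (N0 : ℝ) ≤ N := by exact_mod_cast hN
    linarith [hB u hu]
  rw [Multiset.mem_toFinset, ← Multiset.count_ne_zero, hZ.cnt N u h1]
  exact hm

theorem summable_of_Z (hZ : Zeros f Z) {g : ℂ → ℝ} (hg : ∀ u, mu f u ≠ 0 → 0 ≤ g u) {C : ℝ}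
    (hC : ∀ N, ((Z N).map g).sum ≤ C) : Summable fun u => (mu f u : ℝ) * g u := by
  classical
  have hnn : ∀ u, 0 ≤ (mu f u : ℝ) * g u := by
    intro u
    by_cases h : mu f u = 0
    · rw [h]; simp
    · exact mul_nonneg (Nat.cast_nonneg _) (hg u h)
  refine summable_of_sum_le hnn (c := C) fun S => ?_
  obtain ⟨N0, hN0⟩ := exists_N hZ S
  refine le_trans ?_ (hC N0)
  rw [sum_Zr hZ]
  have h1 : ∑ u ∈ S, (mu f u : ℝ) * g u = ∑ u ∈ S.filter (fun u => mu f u ≠ 0), (mu f u : ℝ) * g u := by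
    rw [Finset.sum_filter]
    refine Finset.sum_congr rfl fun u _ => ?_
    split_ifs with h
    · rfl
    · push Not at h
      rw [h]; simp
  rw [h1]
  refine Finset.sum_le_sum_of_subset_of_nonneg ?_ fun u _ _ => hnn u
  intro u hu
  rw [Finset.mem_filter] at hu
  exact hN0 N0 le_rfl u hu.1 hu.2

theorem hasSum_of_Z (hZ : Zeros f Z) {g : ℂ → ℂ} (hs : Summable fun u => (mu f u : ℂ) * g u) {A : ℂ}
    (hA : Tendsto (fun N => ((Z N).map g).sum) atTop (𝓝 A)) : HasSum (fun u => (mu f u : ℂ) * g u) A := by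
  classical
  obtain ⟨B, hB⟩ := hs
  have h1 : Tendsto (fun N => ((Z N).map g).sum) atTop (𝓝 B) := by
    rw [Metric.tendsto_atTop]
    intro ε hε
    rw [HasSum, SummationFilter.unconditional_filter, Metric.tendsto_atTop] at hB
    obtain ⟨S, hS⟩ := hB ε hε
    obtain ⟨N0, hN0⟩ := exists_N hZ S
    refine ⟨N0, fun N hN => ?_⟩
    have h2 := hS (S ∪ (Z N).toFinset) Finset.subset_union_left
    rw [sum_Z hZ]
    have h3 : ∑ u ∈ S ∪ (Z N).toFinset, (mu f u : ℂ) * g u = ∑ u ∈ (Z N).toFinset, (mu f u : ℂ) * g u := by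
      symm
      refine Finset.sum_subset Finset.subset_union_right fun u hu hu' => ?_
      rw [Finset.mem_union] at hu
      rcases hu with hu | hu
      · by_cases h : mu f u = 0
        · rw [h]; simp
        · exact absurd (hN0 N hN u hu h) hu'
      · exact absurd hu hu'
    rwa [h3] at h2
  rw [tendsto_nhds_unique hA h1]
  exact hB

/-- the logarithmic derivative of the polynomials -/
theorem logDeriv_prod (Y : Multiset ℂ) (hY : ∀ u ∈ Y, u ≠ 0) {c : ℂ} (hc : c ≠ 0) {x : ℂ} (hx : ∀ u ∈ Y, x ≠ u) :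
    logDeriv (fun x => c * (Y.map fun u => 1 - x / u).prod) x = (Y.map fun u => 1 / (x - u)).sum ∧
      DifferentiableAt ℂ (fun x => c * (Y.map fun u => 1 - x / u).prod) x ∧
      c * (Y.map fun u => 1 - x / u).prod ≠ 0 := by
  induction Y using Multiset.induction_on with
  | empty =>
    refine ⟨?_, by simp, by simpa using hc⟩
    simp [logDeriv_apply]
  | cons u Y ih =>
    obtain ⟨k1, k2, k3⟩ := ih (fun v hv => hY v (Multiset.mem_cons_of_mem hv))
      (fun v hv => hx v (Multiset.mem_cons_of_mem hv))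
    have hu := hY u (Multiset.mem_cons_self u Y)
    have hxu := hx u (Multiset.mem_cons_self u Y)
    have hxu' : x - u ≠ 0 := sub_ne_zero.2 hxu
    have e : (fun x => c * ((u ::ₘ Y).map fun u => 1 - x / u).prod) =
        fun x => (1 - x / u) * (c * (Y.map fun u => 1 - x / u).prod) := by
      ext x
      rw [Multiset.map_cons, Multiset.prod_cons]
      ring
    have h1 : (1 - x / u) ≠ 0 := by
      intro h
      have : x / u = 1 := by linear_combination -h
      rw [div_eq_one_iff_eq hu] at this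
      exact hxu this
    have h2 : DifferentiableAt ℂ (fun x : ℂ => 1 - x / u) x := by fun_prop
    refine ⟨?_, by rw [e]; exact h2.mul k2, ?_⟩
    · rw [e, logDeriv_mul (f := fun x : ℂ => 1 - x / u) (g := fun x => c * (Y.map fun u => 1 - x / u).prod) x h1 k3 h2 k2,
        k1, Multiset.map_cons, Multiset.sum_cons]
      congr 1
      rw [logDeriv_apply]
      have h3 : deriv (fun x : ℂ => 1 - x / u) x = -(1 / u) := by
        simp [deriv_div_const]
      rw [h3]
      have h4 : u - x ≠ 0 := by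
        intro h
        apply hxu'
        linear_combination -h
      rw [show (1 - x / u : ℂ) = (u - x) / u by field_simp]
      rw [neg_div, div_div_eq_mul_div, one_div_mul_cancel hu, ← neg_sub u x, div_neg]
    · have : c * ((u ::ₘ Y).map fun u => 1 - x / u).prod = (1 - x / u) * (c * (Y.map fun u => 1 - x / u).prod) := by
        rw [Multiset.map_cons, Multiset.prod_cons]
        ring
      rw [this]
      exact mul_ne_zero h1 k3

variable (hf : Differentiable ℂ f) (h0 : f 0 ≠ 0)

include hf h0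

theorem mem_zero (hZ : Zeros f Z) {N : ℕ} {u : ℂ} (hu : u ∈ Z N) : f u = 0 := by
  rw [← mu_pos hf h0, ← hZ.cnt N u (hZ.mem N u hu).1, Multiset.count_ne_zero]
  exact hu

theorem tendsto_logDeriv (hZ : Zeros f Z) {x : ℂ} (hx : f x ≠ 0) :
    Tendsto (fun N => ((Z N).map fun u => 1 / (x - u)).sum) atTop (𝓝 (logDeriv f x)) := by
  have hl : TendstoLocallyUniformlyOn (fun (N : ℕ) (x : ℂ) => f 0 * ((Z N).map fun u => 1 - x / u).prod) f atTop Set.univ :=
    tendstoLocallyUniformlyOn_univ.2 hZ.lim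
  have hd : ∀ N : ℕ, DifferentiableOn ℂ (fun x => f 0 * ((Z N).map fun u => 1 - x / u).prod) Set.univ := by
    intro N
    rw [differentiableOn_univ]
    refine Differentiable.const_mul ?_ _
    generalize Z N = Y
    induction Y using Multiset.induction_on with
    | empty => simp
    | cons u Y ih =>
      have : (fun x => ((u ::ₘ Y).map fun u => 1 - x / u).prod) = fun x => (1 - x / u) * (Y.map fun u => 1 - x / u).prod := by
        ext x
        rw [Multiset.map_cons, Multiset.prod_cons]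
      rw [this]
      exact Differentiable.mul (by fun_prop) ih
  have h1 := hl.deriv (Eventually.of_forall hd) isOpen_univ
  have h2 := (h1.tendsto_at (Set.mem_univ x)).div (hl.tendsto_at (Set.mem_univ x)) hx
  refine h2.congr fun N => ?_
  have h3 := (logDeriv_prod (Z N) (fun u hu => (hZ.mem N u hu).2) h0 (x := x)
    (fun u hu h => hx (by rw [h]; exact mem_zero hf h0 hZ hu))).1
  rw [← h3, logDeriv_apply]
  rfl

end Run7.h278.WL
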