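import Pool.Agent.Run7.h278.WL.Pf

set_option autoImplicit false

/-!
# Partial fractions for functions with zeros in the parabola
-/

namespace Run7.h278.WL

open Complex Filter Topology Metric Pool.Agent.H24R2.JP

theorem par_ineq {u : ℂ} (hu : u ∈ Par) : 1 / (2 + ‖u‖) ≤ (1 / (1 - u)).re := by
  have h1 : u.re + u.im ^ 2 ≤ 1 / 4 := hu
  have h2 : u.re ≤ 1 / 4 := by nlinarith [sq_nonneg u.im]
  have h3 : -‖u‖ ≤ u.re := by
    have := Complex.abs_re_le_norm u
    rw [abs_le] at this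
    exact this.1
  rw [one_div (1 - u), Complex.inv_re]
  have h4 : (1 - u).re = 1 - u.re := by simp
  have h5 : normSq (1 - u) = (1 - u.re) ^ 2 + u.im ^ 2 := by
    rw [Complex.normSq_apply]
    simp
    ring
  rw [h4, h5, div_le_div_iff₀ (by positivity) (by nlinarith [sq_nonneg u.im])]
  nlinarith [norm_nonneg u]

variable {f : ℂ → ℂ} {Z : ℕ → Multiset ℂ} (hf : Differentiable ℂ f) (h0 : f 0 ≠ 0) (hZ : Zeros f Z)
  (hP : ∀ u, f u = 0 → u ∈ Par)

theorem one_notin_par : (1 : ℂ) ∉ Par := by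
  intro h
  have : (1 : ℂ).re + (1 : ℂ).im ^ 2 ≤ 1 / 4 := h
  norm_num at this

include hf h0 hZ hP

theorem summable_mu : Summable fun u : ℂ => (mu f u : ℝ) * (1 / (2 + ‖u‖)) := by
  have h1 : f 1 ≠ 0 := fun h => one_notin_par (hP 1 h)
  have h2 := tendsto_logDeriv hf h0 hZ h1
  obtain ⟨C, hC⟩ := (Complex.continuous_re.tendsto _ |>.comp h2).bddAbove_range
  refine summable_of_Z hZ (fun u _ => by positivity) (C := C) fun N => ?_
  have h3 := hC (Set.mem_range_self N)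
  refine le_trans ?_ h3
  simp only [Function.comp_apply]
  have h4 : ∀ Y : Multiset ℂ, (∀ u ∈ Y, u ∈ Par) →
      (Y.map fun u => 1 / (2 + ‖u‖)).sum ≤ ((Y.map fun u => 1 / (1 - u)).sum).re := by
    intro Y hY
    induction Y using Multiset.induction_on with
    | empty => simp
    | cons u Y ih =>
      rw [Multiset.map_cons, Multiset.map_cons, Multiset.sum_cons, Multiset.sum_cons, Complex.add_re]
      exact add_le_add (par_ineq (hY u (Multiset.mem_cons_self u Y)))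
        (ih fun v hv => hY v (Multiset.mem_cons_of_mem hv))
  exact h4 _ fun u hu => hP u (mem_zero hf h0 hZ hu)

/-- comparison -/
theorem summable_cmp {g : ℂ → ℂ} {C : ℝ} (hg : ∀ u, f u = 0 → ‖g u‖ ≤ C * (1 / (2 + ‖u‖))) :
    Summable fun u : ℂ => (mu f u : ℂ) * g u := by
  have h1 := (summable_mu hf h0 hZ hP).mul_left C
  refine Summable.of_norm_bounded h1 fun u => ?_
  rw [norm_mul, Complex.norm_natCast]
  by_cases h : mu f u = 0
  · rw [h]; simp
  · have h := (mu_pos hf h0 u).1 h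
    calc (mu f u : ℝ) * ‖g u‖ ≤ (mu f u : ℝ) * (C * (1 / (2 + ‖u‖))) := by
          have := hg u h
          gcongr
      _ = _ := by ring

omit h0 hZ hP in
theorem dist_zeros {x : ℂ} (hx : f x ≠ 0) : ∃ c : ℝ, 0 < c ∧ ∀ u, f u = 0 → c * (2 + ‖u‖) ≤ ‖x - u‖ := by
  have h1 : ∀ᶠ y in 𝓝 x, f y ≠ 0 := hf.continuous.continuousAt.eventually_ne hx
  rw [Metric.eventually_nhds_iff] at h1
  obtain ⟨δ, hδ, h2⟩ := h1
  refine ⟨min (1 / 4) (δ / (2 * ‖x‖ + 4)), by positivity, fun u hu => ?_⟩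
  have h3 : δ ≤ ‖x - u‖ := by
    by_contra hcon
    push Not at hcon
    refine h2 (y := u) ?_ hu
    rw [dist_comm, dist_eq_norm]
    exact hcon
  rcases le_total (2 * ‖x‖ + 2) ‖u‖ with h4 | h4
  · have h5 : ‖u‖ - ‖x‖ ≤ ‖x - u‖ := by
      rw [norm_sub_rev]
      exact norm_sub_norm_le _ _
    have h6 : min (1 / 4) (δ / (2 * ‖x‖ + 4)) * (2 + ‖u‖) ≤ 1 / 4 * (2 + ‖u‖) := by
      gcongr
      exact min_le_left _ _
    nlinarith [norm_nonneg x]
  · have h6 : min (1 / 4) (δ / (2 * ‖x‖ + 4)) * (2 + ‖u‖) ≤ (δ / (2 * ‖x‖ + 4)) * (2 * ‖x‖ + 4) :=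
      mul_le_mul (min_le_right _ _) (by linarith) (by positivity) (by positivity)
    rw [div_mul_cancel₀ _ (by positivity)] at h6
    linarith

theorem hasSum_logDeriv {x : ℂ} (hx : f x ≠ 0) : HasSum (fun u => (mu f u : ℂ) * (1 / (x - u))) (logDeriv f x) := by
  obtain ⟨c, hc, h1⟩ := dist_zeros hf hx
  refine hasSum_of_Z hZ (summable_cmp hf h0 hZ hP (C := 1 / c) fun u hu => ?_) (tendsto_logDeriv hf h0 hZ hx)
  have h2 := h1 u hu
  have h3 : 0 < c * (2 + ‖u‖) := by positivity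
  rw [norm_div, norm_one, one_div_mul_one_div]
  exact one_div_le_one_div_of_le h3 h2

end Run7.h278.WL
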