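import Pool.Agent.Run7.h278.WL.Lam
import Pool.Agent.Run7.h278.WL.Erg
import Pool.Agent.H24R2.JP.Gam
import Pool.Agent.H24R2.JP.Mom

set_option autoImplicit false

/-!
# Mean values of the squares under RH
-/

namespace Run7.h278.WL

open Complex Filter Topology Finset Pool.Agent.H24R2.JP Run7.h278.LI

/-- the second differences -/
noncomputable def dd (n : ℕ) : ℝ := li (n + 2) - 2 * li (n + 1) + li n

theorem dd_eq (n : ℕ) : ((dd n : ℝ) : ℂ) = lam (n + 2) - 2 * lam (n + 1) + lam n := by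
  rw [lam_eq, lam_eq, lam_eq]
  unfold dd
  push_cast
  ring

theorem FF_zero_ne : FF 0 ≠ 0 := by
  have h1 := b1.2.2.2 0
  rw [iteratedDeriv_zero] at h1
  have h2 : 0 < gam 0 := (gamS mom).1 0
  rw [h1]
  exact_mod_cast h2.ne'

theorem Fs_quarter : Fs (-(1 / 4)) ≠ 0 := by
  unfold Fs
  rw [show (-(1 / 4) + 1 / 4 : ℂ) = 0 by ring]
  exact FF_zero_ne

theorem zero_ne {v : ℂ} (hv : Fs v = 0) : v ≠ 0 := by
  rintro rfl
  exact Fs_zero_ne hv

theorem zt_inj {v v' : ℂ} (hv : v ≠ 0) (hv' : v' ≠ 0) (h : zt v = zt v') : v = v' := by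
  have h1 := zt_sum hv
  have h2 := zt_sum hv'
  rw [h, h2] at h1
  have h3 : 1 / v' = 1 / v := by linear_combination h1
  rw [one_div, one_div, inv_inj] at h3
  exact h3.symm

theorem zt_inv_inj {v v' : ℂ} (hv : v ≠ 0) (hv' : v' ≠ 0) (h : zt v = (zt v')⁻¹) : v = v' := by
  have h1 := zt_sum hv
  have h2 := zt_sum hv'
  rw [h, inv_inv, add_comm, h2] at h1
  have h3 : 1 / v' = 1 / v := by linear_combination h1
  rw [one_div, one_div, inv_inj] at h3
  exact h3.symm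

theorem zt_sq_ne {v : ℂ} (hv : Fs v = 0) : zt v * zt v ≠ 1 := by
  intro h
  have hv0 := zero_ne hv
  have h1 := zt_sum hv0
  have hz := zt_ne hv0
  have h2 : (zt v)⁻¹ = zt v := inv_eq_of_mul_eq_one_right h
  rw [h2] at h1
  have h3 : (zt v - 1) * (zt v + 1) = 0 := by linear_combination h
  rcases mul_eq_zero.1 h3 with h4 | h4
  · have : 1 / v = 0 := by linear_combination -h1 + 2 * h4
    rw [one_div, inv_eq_zero] at this
    exact hv0 this
  · have : 1 / v = -4 := by linear_combination -h1 + 2 * h4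
    rw [one_div, inv_eq_iff_eq_inv] at this
    apply Fs_quarter
    rw [show (-(1 / 4) : ℂ) = (-4)⁻¹ by norm_num, ← this]
    exact hv

theorem zt_norm {y : ℝ} (hy : y ≤ -(1 / 4)) : ‖zt (y : ℂ)‖ = 1 := by
  have hy0 : (y : ℂ) ≠ 0 := by
    have : y ≠ 0 := by linarith
    exact_mod_cast this
  obtain ⟨h1, h2⟩ := zt_aux hy0
  have h := sqrt_sq (y : ℂ)
  unfold zt
  set q := ((y : ℂ) + 1 / 4) ^ (1 / 2 : ℂ) with hq
  have hr : q.re ^ 2 - q.im ^ 2 = y + 1 / 4 := by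
    have := congrArg Complex.re h
    rw [pow_two, Complex.mul_re] at this
    simp at this
    nlinarith
  have hi : q.re * q.im = 0 := by
    have := congrArg Complex.im h
    rw [pow_two, Complex.mul_im] at this
    simp at this
    nlinarith
  have hq0 : q.re = 0 := by
    rcases mul_eq_zero.1 hi with h3 | h3
    · exact h3
    · rw [h3] at hr
      nlinarith [sq_nonneg q.re]
  have hn : ‖q - 1 / 2‖ = ‖q + 1 / 2‖ := by
    rw [← sq_eq_sq₀ (norm_nonneg _) (norm_nonneg _), ← Complex.normSq_eq_norm_sq, ← Complex.normSq_eq_norm_sq,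
      Complex.normSq_apply, Complex.normSq_apply]
    simp [hq0]
  rw [norm_div, hn, div_self (norm_ne_zero_iff.2 h2)]

/-- the index type of the zeros -/
abbrev ZI : Type := {v : ℂ // Fs v = 0}

noncomputable def wt (v : ZI) : ℂ := (mu Fs v : ℂ) * (-(1 / (v : ℂ)))

noncomputable def ee (n : ℕ) (v : ZI) : ℂ := zt v ^ (n + 1) + ((zt v)⁻¹) ^ (n + 1)

theorem support_sub {g : ℂ → ℂ} : Function.support (fun v : ℂ => (mu Fs v : ℂ) * g v) ⊆ {v | Fs v = 0} := by
  intro v hv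
  rw [Function.mem_support] at hv
  by_contra h
  apply hv
  have : mu Fs v = 0 := by
    by_contra h1
    exact h ((mu_pos Fs_diff Fs_zero_ne v).1 h1)
  rw [this]
  simp

theorem dd_hasSum {Z : ℕ → Multiset ℂ} (hZ : Zeros Fs Z) (n : ℕ) : HasSum (fun v : ZI => wt v * ee n v) ((dd n : ℝ) : ℂ) := by
  have h := hasSum_diff hZ n
  rw [← dd_eq, ← hasSum_subtype_iff_of_support_subset support_sub] at h
  have heq : (fun v : ZI => wt v * ee n v) = (fun v : ℂ => (mu Fs v : ℂ) * (-(1 / v) * (zt v ^ (n + 1) +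
      ((zt v)⁻¹) ^ (n + 1)))) ∘ ((↑) : {v : ℂ | Fs v = 0} → ℂ) := by
    funext v
    simp only [Function.comp_apply, wt, ee]
    ring
  rw [heq]
  exact h

theorem wt_summable {Z : ℕ → Multiset ℂ} (hZ : Zeros Fs Z) : Summable fun v : ZI => ‖wt v‖ := by
  have h := (summable_inv hZ).subtype {v : ℂ | Fs v = 0}
  refine h.congr fun v => ?_
  simp only [Function.comp_apply, wt]
  rw [norm_mul, norm_neg, Complex.norm_natCast]

section

variable (hRH : RiemannHypothesis)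

include hRH

theorem zi_norm (v : ZI) : ‖zt (v : ℂ)‖ = 1 := by
  obtain ⟨y, hy, hv⟩ := Fs_zeros hRH v.2
  rw [hv]
  exact zt_norm hy

theorem ee_bound (n : ℕ) (v : ZI) : ‖ee n v‖ ≤ 2 := by
  unfold ee
  refine (norm_add_le _ _).trans ?_
  rw [norm_pow, norm_pow, norm_inv, zi_norm hRH v]
  norm_num

theorem ee_mean {a : ℕ → ℕ} (ha : Erg a) (v v' : ZI) :
    Tendsto (fun N : ℕ => (∑ n ∈ range N, ee (a n) v * ee (a n) v') / (N : ℂ)) atTop
      (𝓝 (if v = v' then 2 else 0)) := by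
  classical
  have hv0 := zero_ne v.2
  have hv0' := zero_ne v'.2
  have hz := zt_ne hv0
  have hz' := zt_ne hv0'
  have hn := zi_norm hRH v
  have hn' := zi_norm hRH v'
  set z : ℂ := zt (v : ℂ) with hzd
  set z' : ℂ := zt (v' : ℂ) with hzd'
  have e : ∀ N : ℕ, (∑ n ∈ range N, ee (a n) v * ee (a n) v') / (N : ℂ) =
      (∑ n ∈ range N, 1 * (z * z') ^ (a n + 1)) / (N : ℂ) + (∑ n ∈ range N, 1 * (z⁻¹ * z'⁻¹) ^ (a n + 1)) / (N : ℂ) +
      (∑ n ∈ range N, 1 * (z * z'⁻¹) ^ (a n + 1)) / (N : ℂ) + (∑ n ∈ range N, 1 * (z⁻¹ * z') ^ (a n + 1)) / (N : ℂ) := by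
    intro N
    rw [← add_div, ← add_div, ← add_div, ← sum_add_distrib, ← sum_add_distrib, ← sum_add_distrib]
    congr 1
    refine sum_congr rfl fun n _ => ?_
    unfold ee
    rw [← hzd, ← hzd']
    simp only [mul_pow]
    ring
  simp_rw [e]
  -- products different from one
  have p1 : z * z' ≠ 1 := by
    intro h
    have h1 : z = z'⁻¹ := eq_inv_of_mul_eq_one_left h
    have h2 := zt_inv_inj hv0 hv0' h1
    have h3 : z' = z := by rw [hzd, hzd', h2]
    rw [h3] at h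
    exact zt_sq_ne v.2 h
  have p2 : z⁻¹ * z'⁻¹ ≠ 1 := by
    intro h
    apply p1
    rw [← mul_inv, inv_eq_one] at h
    exact h
  have n1 : ‖z * z'‖ = 1 := by rw [norm_mul, hn, hn', one_mul]
  have n2 : ‖z⁻¹ * z'⁻¹‖ = 1 := by rw [norm_mul, norm_inv, norm_inv, hn, hn']; norm_num
  have n3 : ‖z * z'⁻¹‖ = 1 := by rw [norm_mul, norm_inv, hn, hn']; norm_num
  have n4 : ‖z⁻¹ * z'‖ = 1 := by rw [norm_mul, norm_inv, hn, hn']; norm_num
  have t1 := ha.zpow n1 p1 1 1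
  have t2 := ha.zpow n2 p2 1 1
  by_cases hvv : v = v'
  · rw [if_pos hvv]
    have q3 : z * z'⁻¹ = 1 := by
      rw [hzd, hzd', hvv]
      exact mul_inv_cancel₀ hz'
    have q4 : z⁻¹ * z' = 1 := by
      rw [hzd, hzd', hvv]
      exact inv_mul_cancel₀ hz'
    have t3 : Tendsto (fun N : ℕ => (∑ n ∈ range N, 1 * (z * z'⁻¹) ^ (a n + 1)) / (N : ℂ)) atTop (𝓝 1) := by
      rw [q3]
      simpa using mean_one 1
    have t4 : Tendsto (fun N : ℕ => (∑ n ∈ range N, 1 * (z⁻¹ * z') ^ (a n + 1)) / (N : ℂ)) atTop (𝓝 1) := by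
      rw [q4]
      simpa using mean_one 1
    have := ((t1.add t2).add t3).add t4
    have e2 : (0 : ℂ) + 0 + 1 + 1 = 2 := by norm_num
    rwa [e2] at this
  · rw [if_neg hvv]
    have q3 : z * z'⁻¹ ≠ 1 := by
      intro h
      apply hvv
      have h1 : z = z' := by
        rw [mul_inv_eq_one₀ hz'] at h
        exact h
      exact Subtype.ext (zt_inj hv0 hv0' h1)
    have q4 : z⁻¹ * z' ≠ 1 := by
      intro h
      apply hvv
      have h1 : z = z' := by
        rw [inv_mul_eq_one₀ hz] at h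
        exact h
      exact Subtype.ext (zt_inj hv0 hv0' h1)
    have t3 := ha.zpow n3 q3 1 1
    have t4 := ha.zpow n4 q4 1 1
    have := ((t1.add t2).add t3).add t4
    have e2 : (0 : ℂ) + 0 + 0 + 0 = 0 := by norm_num
    rwa [e2] at this

/-- the weights are positive real numbers -/
theorem wt_real (v : ZI) : wt v = (((mu Fs v : ℝ) * ‖1 / (v : ℂ)‖ : ℝ) : ℂ) := by
  obtain ⟨y, hy, hv⟩ := Fs_zeros hRH v.2
  unfold wt
  rw [hv]
  have h1 : ‖1 / (y : ℂ)‖ = -(1 / y) := by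
    rw [norm_div, norm_one, Complex.norm_real, Real.norm_eq_abs, abs_of_neg (by linarith)]
    rw [one_div_neg_eq_neg_one_div]
  rw [h1]
  push_cast
  ring

/-- the limit -/
noncomputable def LL : ℝ := ∑' v : ZI, 2 * ((mu Fs v : ℝ) * ‖1 / (v : ℂ)‖) ^ 2

theorem wien {a : ℕ → ℕ} (ha : Erg a) : Tendsto (fun N : ℕ => (∑ n ∈ range N, dd (a n) ^ 2) / (N : ℝ)) atTop (𝓝 LL) := by
  classical
  obtain ⟨Z, hZ⟩ := exists_Zs
  have h := mean_sq (wt_summable hZ) (ee_bound hRH) a (ee_mean hRH ha)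
  have e1 : ∀ N : ℕ, (∑ n ∈ range N, (∑' v : ZI, wt v * ee (a n) v) ^ 2) / (N : ℂ) =
      (((∑ n ∈ range N, dd (a n) ^ 2) / (N : ℝ) : ℝ) : ℂ) := by
    intro N
    push_cast
    congr 1
    refine sum_congr rfl fun n _ => ?_
    rw [(dd_hasSum hZ (a n)).tsum_eq]
  simp_rw [e1] at h
  have e2 : (∑' p : ZI × ZI, wt p.1 * wt p.2 * (if p.1 = p.2 then 2 else 0)) = ((LL : ℝ) : ℂ) := by
    have h1 : Function.Injective (fun v : ZI => (v, v)) := fun v v' h => (Prod.mk.inj h).1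
    have h2 : Function.support (fun p : ZI × ZI => wt p.1 * wt p.2 * (if p.1 = p.2 then (2 : ℂ) else 0)) ⊆
        Set.range (fun v : ZI => (v, v)) := by
      intro p hp
      rw [Function.mem_support] at hp
      by_contra hcon
      apply hp
      rw [if_neg, mul_zero]
      intro hpp
      exact hcon ⟨p.1, Prod.ext rfl hpp⟩
    rw [← h1.tsum_eq h2]
    unfold LL
    rw [Complex.ofReal_tsum]
    refine tsum_congr fun v => ?_
    simp only [if_true]
    rw [wt_real hRH]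
    push_cast
    ring
  rw [e2] at h
  have h3 := (Complex.continuous_re.tendsto _).comp h
  refine h3.congr fun N => ?_
  simp only [Function.comp_apply, Complex.ofReal_re]

theorem D_hasSum : HasSum (fun v : ZI => (mu Fs v : ℝ) * (2 * ‖1 / (v : ℂ)‖ ^ 2)) (8 * li 1 - 2 * li 2) := by
  obtain ⟨Z, hZ⟩ := exists_Zs
  have h := hasSum_D hZ
  rw [← hasSum_subtype_iff_of_support_subset support_sub] at h
  rw [lam_eq, lam_eq] at h
  have h2 := Complex.hasSum_re h
  have e : (8 * ((li 1 : ℝ) : ℂ) - 2 * ((li 2 : ℝ) : ℂ)).re = 8 * li 1 - 2 * li 2 := by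
    simp
  rw [e] at h2
  have heq : (fun v : ZI => (mu Fs v : ℝ) * (2 * ‖1 / (v : ℂ)‖ ^ 2)) =
      fun x : {v : ℂ | Fs v = 0} => (((fun v : ℂ => (mu Fs v : ℂ) * (2 * (1 / v) ^ 2)) ∘ ((↑) : {v : ℂ | Fs v = 0} → ℂ)) x).re := by
    funext v
    obtain ⟨y, hy, hv⟩ := Fs_zeros hRH v.2
    simp only [Function.comp_apply]
    have e3 : (mu Fs (v : ℂ) : ℂ) * (2 * (1 / (v : ℂ)) ^ 2) = (((mu Fs (v : ℂ) : ℝ) * (2 * (1 / y) ^ 2) : ℝ) : ℂ) := by
      push_cast
      rw [hv]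
    rw [e3, Complex.ofReal_re, hv]
    congr 2
    rw [norm_div, norm_one, Complex.norm_real, Real.norm_eq_abs, div_pow, div_pow, sq_abs]
  rw [heq]
  exact h2

omit hRH in
theorem sq_summable {Z : ℕ → Multiset ℂ} (hZ : Zeros Fs Z) :
    Summable fun v : ZI => 2 * ((mu Fs v : ℝ) * ‖1 / (v : ℂ)‖) ^ 2 := by
  have h := (summable_inv hZ).subtype {v : ℂ | Fs v = 0}
  have h1 := h.mul_of_nonneg h (fun _ => by simp only [Function.comp_apply, Pi.zero_apply]; positivity)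
    (fun _ => by simp only [Function.comp_apply, Pi.zero_apply]; positivity)
  have h2 := h1.comp_injective (i := fun v : {v : ℂ | Fs v = 0} => (v, v)) fun v v' h => (Prod.mk.inj h).1
  refine (h2.mul_left 2).congr fun v => ?_
  simp only [Function.comp_apply]
  ring

theorem diff_hasSum : HasSum (fun v : ZI => 2 * ((mu Fs v : ℝ) * ((mu Fs v : ℝ) - 1)) * ‖1 / (v : ℂ)‖ ^ 2)
    (LL - (8 * li 1 - 2 * li 2)) := by
  obtain ⟨Z, hZ⟩ := exists_Zs
  have h1 := (sq_summable hZ).hasSum.sub (D_hasSum hRH)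
  have heq : (fun v : ZI => 2 * ((mu Fs v : ℝ) * ((mu Fs v : ℝ) - 1)) * ‖1 / (v : ℂ)‖ ^ 2) = fun v : ZI =>
      2 * ((mu Fs v : ℝ) * ‖1 / (v : ℂ)‖) ^ 2 - (mu Fs v : ℝ) * (2 * ‖1 / (v : ℂ)‖ ^ 2) := by
    funext v
    ring
  rw [heq]
  exact h1

omit hRH in
theorem mu_one_le (v : ZI) : (1 : ℝ) ≤ (mu Fs v : ℝ) := by
  have h := (mu_pos Fs_diff Fs_zero_ne v).2 v.2
  have : 1 ≤ mu Fs v := Nat.one_le_iff_ne_zero.2 h
  exact_mod_cast this

omit hRH in
theorem diff_nonneg (v : ZI) : 0 ≤ 2 * ((mu Fs v : ℝ) * ((mu Fs v : ℝ) - 1)) * ‖1 / (v : ℂ)‖ ^ 2 := by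
  have h := mu_one_le v
  have h2 : 0 ≤ (mu Fs v : ℝ) - 1 := by linarith
  positivity

theorem D_le_LL : 8 * li 1 - 2 * li 2 ≤ LL := by
  have := (diff_hasSum hRH).nonneg diff_nonneg
  linarith

theorem LL_eq_iff : LL = 8 * li 1 - 2 * li 2 ↔ ∀ v : ZI, mu Fs v = 1 := by
  have h := diff_hasSum hRH
  constructor
  · intro h1 v
    rw [h1, sub_self, hasSum_zero_iff_of_nonneg diff_nonneg] at h
    have h2 := congrFun h v
    simp only [Pi.zero_apply] at h2
    have h3 := mu_one_le v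
    have h4 : 0 < ‖1 / (v : ℂ)‖ ^ 2 := by
      have : (1 / (v : ℂ)) ≠ 0 := one_div_ne_zero (zero_ne v.2)
      positivity
    have h5 : (mu Fs (v : ℂ) : ℝ) = 1 := by
      rcases mul_eq_zero.1 h2 with h6 | h6
      · have h7 : (mu Fs (v : ℂ) : ℝ) * ((mu Fs (v : ℂ) : ℝ) - 1) = 0 := by linarith
        rcases mul_eq_zero.1 h7 with h8 | h8
        · linarith
        · linarith
      · exact absurd h6 h4.ne'
    exact_mod_cast h5
  · intro h1
    have h2 : (fun v : ZI => 2 * ((mu Fs v : ℝ) * ((mu Fs v : ℝ) - 1)) * ‖1 / (v : ℂ)‖ ^ 2) = fun _ => 0 := by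
      funext v
      rw [h1 v]
      simp
    rw [h2] at h
    have := h.unique _root_.hasSum_zero
    linarith

end

end Run7.h278.WL
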